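import Mathlib

set_option autoImplicit false

/-!
# Local rings and residue fields of a number field

For a nonzero prime `v` of `𝓞 K` we use the local ring `Sv v ⊆ K`, the (finite) residue field
`kf v = 𝓞 K / v`, its characteristic `pr v`, and the reduction map `red v : Sv v →+* kf v`.
-/

namespace Pool.Agent.W_MP_b91de3_nt

open IsDedekindDomain NumberField Filter

variable {K : Type*} [Field K] [NumberField K]

/-- The residue field `𝓞 K / v`. -/
def kf (v : HeightOneSpectrum (𝓞 K)) : Type _ := 𝓞 K ⧸ v.asIdeal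

noncomputable instance kf.field (v : HeightOneSpectrum (𝓞 K)) : Field (kf v) :=
  @Ideal.Quotient.field _ _ v.asIdeal v.isMaximal

instance kf.finite (v : HeightOneSpectrum (𝓞 K)) : Finite (kf v) :=
  Ideal.finiteQuotientOfFreeOfNeBot v.asIdeal v.ne_bot

/-- The residue characteristic. -/
noncomputable def pr (v : HeightOneSpectrum (𝓞 K)) : ℕ := ringChar (kf v)

instance charP_kf (v : HeightOneSpectrum (𝓞 K)) : CharP (kf v) (pr v) := ringChar.charP _

instance pr_prime (v : HeightOneSpectrum (𝓞 K)) : Fact (pr v).Prime :=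
  ⟨by
    rcases CharP.char_is_prime_or_zero (kf v) (pr v) with h | h
    · exact h
    · exfalso
      exact CharP.char_ne_zero_of_finite (kf v) (pr v) h⟩

/-- The local ring of `𝓞 K` at `v`, as a subring of `K`. -/
noncomputable def Sv (v : HeightOneSpectrum (𝓞 K)) : Subring K :=
  (HeightOneSpectrum.valuationSubringAtPrime K v).toSubring

lemma mem_Sv (v : HeightOneSpectrum (𝓞 K)) (x : K) :
    x ∈ Sv v ↔ ∃ (a s : 𝓞 K) (_ : s ∉ v.asIdeal), x = (a : K) * (s : K)⁻¹ := Iff.rfl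

/-- The quotient map `𝓞 K → 𝓞 K / v`. -/
noncomputable def qm (v : HeightOneSpectrum (𝓞 K)) : 𝓞 K →+* kf v := Ideal.Quotient.mk v.asIdeal

lemma qm_eq_zero (v : HeightOneSpectrum (𝓞 K)) (a : 𝓞 K) : qm v a = 0 ↔ a ∈ v.asIdeal :=
  Ideal.Quotient.eq_zero_iff_mem

lemma qm_isUnit (v : HeightOneSpectrum (𝓞 K)) (s : v.asIdeal.primeCompl) :
    IsUnit (qm v s) := by
  rw [isUnit_iff_ne_zero, Ne, qm_eq_zero]
  exact s.2

/-- The reduction map `Sv v → 𝓞 K / v`. -/
noncomputable def red (v : HeightOneSpectrum (𝓞 K)) : Sv v →+* kf v :=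
  (IsLocalization.lift (M := v.asIdeal.primeCompl)
    (S := HeightOneSpectrum.valuationSubringAtPrime K v) (g := qm v) (qm_isUnit v) :
      HeightOneSpectrum.valuationSubringAtPrime K v →+* kf v)

lemma coe_mem_Sv (v : HeightOneSpectrum (𝓞 K)) (a : 𝓞 K) : (a : K) ∈ Sv v :=
  (mem_Sv v _).2 ⟨a, 1, fun h => v.isPrime.ne_top ((Ideal.eq_top_iff_one _).2 h), by simp⟩

lemma red_coe (v : HeightOneSpectrum (𝓞 K)) (a : 𝓞 K) (h : (a : K) ∈ Sv v) :
    red v ⟨(a : K), h⟩ = qm v a := by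
  have := IsLocalization.lift_eq (M := v.asIdeal.primeCompl)
    (S := HeightOneSpectrum.valuationSubringAtPrime K v) (g := qm v) (qm_isUnit v) a
  rw [← this]
  rfl

lemma eventually_not_mem {a : 𝓞 K} (ha : a ≠ 0) :
    ∀ᶠ v : HeightOneSpectrum (𝓞 K) in cofinite, a ∉ v.asIdeal := by
  have h := Ideal.finite_factors (R := 𝓞 K) (I := Ideal.span {a}) (by simpa using ha)
  rw [Filter.eventually_cofinite]
  refine h.subset ?_
  intro v hv
  simp only [not_not] at hv
  have : v.asIdeal ∣ Ideal.span {a} := by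
    rw [Ideal.dvd_span_singleton]
    simpa using hv
  exact this

lemma eventually_mem_Sv (x : K) : ∀ᶠ v : HeightOneSpectrum (𝓞 K) in cofinite, x ∈ Sv v := by
  obtain ⟨a, b, hb, rfl⟩ := IsFractionRing.div_surjective (A := 𝓞 K) x
  have hb0 : b ≠ 0 := nonZeroDivisors.ne_zero hb
  filter_upwards [eventually_not_mem hb0] with v hv
  exact (mem_Sv v _).2 ⟨a, b, hv, by rw [div_eq_mul_inv]⟩

lemma natCast_mem_iff (v : HeightOneSpectrum (𝓞 K)) (n : ℕ) :
    ((n : 𝓞 K) ∈ v.asIdeal) ↔ pr v ∣ n := by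
  rw [← qm_eq_zero, map_natCast, CharP.cast_eq_zero_iff (kf v) (pr v)]

lemma intCast_mem_iff (v : HeightOneSpectrum (𝓞 K)) (n : ℤ) :
    ((n : 𝓞 K) ∈ v.asIdeal) ↔ (pr v : ℤ) ∣ n := by
  rw [← qm_eq_zero, map_intCast, CharP.intCast_eq_zero_iff (kf v) (pr v)]

lemma eventually_pr_ge (N : ℕ) :
    ∀ᶠ v : HeightOneSpectrum (𝓞 K) in cofinite, N ≤ pr v := by
  have h : ((N.factorial : ℕ) : 𝓞 K) ≠ 0 := Nat.cast_ne_zero.2 (Nat.factorial_ne_zero N)
  filter_upwards [eventually_not_mem h] with v hv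
  rw [natCast_mem_iff] at hv
  by_contra hlt
  push Not at hlt
  exact hv (Nat.dvd_factorial (Fact.out : (pr v).Prime).pos hlt.le)

/-- every rational prime lies below some `v` -/
lemma exists_pr_eq (p : ℕ) (hp : p.Prime) : ∃ v : HeightOneSpectrum (𝓞 K), pr v = p := by
  have hne : Ideal.span {(p : 𝓞 K)} ≠ ⊤ := by
    intro h
    rw [← Ideal.absNorm_eq_one_iff, Ideal.absNorm_span_natCast] at h
    have h2 := Nat.pow_eq_one.1 h
    rcases h2 with h2 | h2
    · exact hp.one_lt.ne' h2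
    · exact (Module.finrank_pos (R := ℤ) (M := 𝓞 K)).ne' h2
  obtain ⟨m, hm, hle⟩ := Ideal.exists_le_maximal _ hne
  have hpm : (p : 𝓞 K) ∈ m := hle (Ideal.mem_span_singleton_self _)
  have hp0 : (p : 𝓞 K) ≠ 0 := Nat.cast_ne_zero.2 hp.ne_zero
  refine ⟨⟨m, hm.isPrime, ?_⟩, ?_⟩
  · rintro rfl
    exact hp0 (by simpa using hpm)
  · have : pr (⟨m, hm.isPrime, by rintro rfl; exact hp0 (by simpa using hpm)⟩ :
        HeightOneSpectrum (𝓞 K)) ∣ p := by
      rw [← natCast_mem_iff]; exact hpm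
    exact (Nat.prime_dvd_prime_iff_eq (Fact.out) hp).1 this

instance infinite_places : Infinite (HeightOneSpectrum (𝓞 K)) := by
  rw [← not_finite_iff_infinite]
  intro hfin
  have h := Nat.infinite_setOfPred_prime
  apply h
  have : Set.Finite (Set.range (fun v : HeightOneSpectrum (𝓞 K) => pr v)) := Set.finite_range _
  refine this.subset ?_
  intro p hp
  obtain ⟨v, hv⟩ := exists_pr_eq (K := K) p hp
  exact ⟨v, hv⟩

lemma rat_mem_Sv_iff (v : HeightOneSpectrum (𝓞 K)) (r : ℚ) :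
    ((r : K) ∈ Sv v) ↔ ¬ pr v ∣ r.den := by
  have hden : ((r.den : ℕ) : K) ≠ 0 := Nat.cast_ne_zero.2 r.den_nz
  constructor
  · rintro h hd
    obtain ⟨a, s, hs, e⟩ := (mem_Sv v _).1 h
    have hs0 : (s : K) ≠ 0 := by
      intro h0
      apply hs
      have : s = 0 := by exact_mod_cast h0
      rw [this]; exact Ideal.zero_mem _
    have e2 : (r.num : 𝓞 K) * s = a * (r.den : 𝓞 K) := by
      have : ((r.num : K)) * (s : K) = (a : K) * (r.den : K) := by
        have hr : (r : K) = (r.num : K) / (r.den : K) := Rat.cast_def r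
        rw [hr] at e
        field_simp at e
        linear_combination e
      apply RingOfIntegers.ext
      push_cast
      exact this
    have h1 : (r.num : 𝓞 K) * s ∈ v.asIdeal := by
      rw [e2]
      exact Ideal.mul_mem_left _ _ ((natCast_mem_iff v _).2 hd)
    rcases v.isPrime.mem_or_mem h1 with h2 | h2
    · rw [intCast_mem_iff] at h2
      have h3 : pr v ∣ r.num.natAbs := Int.natCast_dvd.1 h2
      have := Nat.dvd_gcd h3 hd
      rw [r.reduced] at this
      exact (Fact.out : (pr v).Prime).one_lt.ne' (Nat.dvd_one.1 this)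
    · exact hs h2
  · intro hd
    refine (mem_Sv v _).2 ⟨(r.num : 𝓞 K), (r.den : 𝓞 K), ?_, ?_⟩
    · rwa [natCast_mem_iff]
    · have hr : (r : K) = (r.num : K) / (r.den : K) := Rat.cast_def r
      rw [hr, div_eq_mul_inv]
      simp

end Pool.Agent.W_MP_b91de3_nt
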