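import Mathlib

set_option autoImplicit false

/-!
# Algebraicity from the vanishing of derivations
-/

namespace Pool.Agent.W_MP_b91de3_nt

universe u

/-- If every derivation of a finitely generated field extension of characteristic zero vanishes,
the extension is algebraic. -/
theorem isAlgebraic_of_derivations {k E : Type u} [Field k] [Field E] [Algebra k E]
    [Algebra.EssFiniteType k E] (h : ∀ D : Derivation k E E, D = 0) : Algebra.IsAlgebraic k E := by
  have hs : Subsingleton (KaehlerDifferential k E) := by
    rw [← not_nontrivial_iff_subsingleton]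
    intro hne
    obtain ⟨x, hx⟩ := exists_ne (0 : KaehlerDifferential k E)
    apply hx
    rw [← Module.forall_dual_apply_eq_zero_iff E x]
    intro φ
    have h1 := h (KaehlerDifferential.linearMapEquivDerivation k E φ)
    have h2 : φ = 0 := by
      apply (KaehlerDifferential.linearMapEquivDerivation k E).injective
      rw [h1, map_zero]
    rw [h2]; rfl
  have hu : Algebra.FormallyUnramified k E := ⟨hs⟩
  have := (Algebra.FormallyUnramified.iff_isSeparable k E).1 hu
  exact Algebra.IsSeparable.isAlgebraic k E

theorem isAlgebraic_of_derivations_adjoin {k L : Type u} [Field k] [Field L] [Algebra k L]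
    (s : Set L) (hs : s.Finite)
    (h : ∀ D : Derivation k (IntermediateField.adjoin k s) (IntermediateField.adjoin k s),
      ∀ (x : L) (hx : x ∈ s), D ⟨x, IntermediateField.subset_adjoin k s hx⟩ = 0)
    (x : L) (hx : x ∈ s) : IsAlgebraic k x := by
  have hfin : Algebra.EssFiniteType k (IntermediateField.adjoin k s) :=
    IntermediateField.essFiniteType_iff.2 (IntermediateField.fg_adjoin_of_finite hs)
  have hD : ∀ D : Derivation k (IntermediateField.adjoin k s) (IntermediateField.adjoin k s),
      D = 0 := by
    intro D
    have key : ∀ (y : L) (hy : y ∈ IntermediateField.adjoin k s), D ⟨y, hy⟩ = 0 := by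
      intro y hy
      induction hy using IntermediateField.adjoin_induction with
      | mem x hx => exact h D x hx
      | algebraMap x => exact D.map_algebraMap x
      | add x y hx hy h1 h2 =>
        have : (⟨x + y, add_mem hx hy⟩ : IntermediateField.adjoin k s) = ⟨x, hx⟩ + ⟨y, hy⟩ := rfl
        rw [this, map_add, h1, h2, add_zero]
      | inv x hx h1 =>
        have : (⟨x⁻¹, inv_mem hx⟩ : IntermediateField.adjoin k s) = (⟨x, hx⟩)⁻¹ := rfl
        rw [this, Derivation.leibniz_inv, h1, smul_zero]
      | mul x y hx hy h1 h2 =>
        have : (⟨x * y, mul_mem hx hy⟩ : IntermediateField.adjoin k s) = ⟨x, hx⟩ * ⟨y, hy⟩ := rfl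
        rw [this, Derivation.leibniz, h1, h2, smul_zero, smul_zero, add_zero]
    ext ⟨y, hy⟩
    rw [key y hy]; rfl
  have halg := isAlgebraic_of_derivations hD
  have h1 := halg.isAlgebraic ⟨x, IntermediateField.subset_adjoin k s hx⟩
  exact (isAlgebraic_algebraMap_iff (R := k) (S := IntermediateField.adjoin k s) (A := L)
    (algebraMap (IntermediateField.adjoin k s) L).injective).2 h1

end Pool.Agent.W_MP_b91de3_nt
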