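import Mathlib

set_option autoImplicit false

/-!
# Logarithmic derivatives of power series in characteristic `p`

`eul u = X * u'` is the Euler operator.  If `v * u = eul u` over a domain of characteristic zero,
`u` has invertible constant coefficient modulo a prime, then modulo that prime
`coeff (p * n) v = (coeff n v) ^ p`.
-/

namespace Pool.Agent.W_MP_b91de3_nt

open PowerSeries

section Eul

variable {R : Type*} [CommRing R]

/-- The Euler operator `X * d/dX`. -/
noncomputable def eul (u : R⟦X⟧) : R⟦X⟧ := X * derivative R u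

lemma coeff_eul (u : R⟦X⟧) (n : ℕ) : coeff n (eul u) = n * coeff n u := by
  rw [eul]
  cases n with
  | zero => simp
  | succ m => rw [coeff_succ_X_mul, coeff_derivative]; push_cast; ring

lemma eul_add (u v : R⟦X⟧) : eul (u + v) = eul u + eul v := by
  simp [eul, mul_add]

lemma eul_sub (u v : R⟦X⟧) : eul (u - v) = eul u - eul v := by
  simp [eul, mul_sub]

lemma eul_mul (u v : R⟦X⟧) : eul (u * v) = u * eul v + v * eul u := by
  simp only [eul, Derivation.leibniz, smul_eq_mul]; ring

lemma eul_C (c : R) : eul (C c : R⟦X⟧) = 0 := by simp [eul]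

lemma eul_pow (u : R⟦X⟧) (n : ℕ) : eul (u ^ n) = n * u ^ (n - 1) * eul u := by
  simp only [eul, PowerSeries.derivative_pow]; ring

lemma eul_X_pow (n : ℕ) : eul ((X : R⟦X⟧) ^ n) = (n : R⟦X⟧) * (X : R⟦X⟧) ^ n := by
  cases n with
  | zero => simp [eul]
  | succ m => rw [eul_pow]; simp [eul]; ring

lemma map_eul {T : Type*} [CommRing T] (φ : R →+* T) (u : R⟦X⟧) :
    PowerSeries.map φ (eul u) = eul (PowerSeries.map φ u) := by
  ext n; simp [coeff_eul]

end Eul

section Expand

variable {k : Type*} [Field k] (p : ℕ) [Fact p.Prime] [CharP k p]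

/-- coefficient of `u ^ p` at a multiple of `p` in characteristic `p` -/
lemma pow_char_eq (hp : p ≠ 0) (u : k⟦X⟧) :
    u ^ p = PowerSeries.expand p hp (PowerSeries.map (frobenius k p) u) := by
  have : ExpChar k p := ExpChar.prime (Fact.out)
  rw [← PowerSeries.map_expand]
  exact (MvPowerSeries.map_frobenius_expand p hp (f := u)).symm

omit [Fact p.Prime] [CharP k p] in
lemma coeff_mul_expand (hp : p ≠ 0) (w u : k⟦X⟧) (n : ℕ) :
    coeff (p * n) (w * PowerSeries.expand p hp u) =
      ∑ ab ∈ Finset.HasAntidiagonal.antidiagonal n, coeff (p * ab.1) w * coeff ab.2 u := by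
  have hp0 : 0 < p := Nat.pos_of_ne_zero hp
  rw [coeff_mul]
  symm
  refine Finset.sum_of_injOn (fun ab => (p * ab.1, p * ab.2)) ?_ ?_ ?_ ?_
  · intro a _ b _ hab
    simp only [Prod.mk.injEq] at hab
    ext
    · exact Nat.eq_of_mul_eq_mul_left hp0 hab.1
    · exact Nat.eq_of_mul_eq_mul_left hp0 hab.2
  · intro a ha
    simp only [Finset.mem_coe, Finset.HasAntidiagonal.mem_antidiagonal] at ha ⊢
    rw [← mul_add, ha]
  · intro b hb hnot
    rw [Finset.HasAntidiagonal.mem_antidiagonal] at hb
    by_cases hd : p ∣ b.2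
    · exfalso
      apply hnot
      obtain ⟨c, hc⟩ := hd
      have hd1 : p ∣ b.1 := by
        have : p ∣ b.1 + b.2 := by rw [hb]; exact dvd_mul_right _ _
        exact (Nat.dvd_add_left (by rw [hc]; exact dvd_mul_right _ _)).1 this
      obtain ⟨e, he⟩ := hd1
      refine ⟨(e, c), ?_, ?_⟩
      · simp only [Finset.mem_coe, Finset.HasAntidiagonal.mem_antidiagonal]
        apply Nat.eq_of_mul_eq_mul_left hp0
        rw [mul_add, ← he, ← hc, hb]
      · ext <;> simp [he, hc]
    · rw [PowerSeries.coeff_expand_of_not_dvd p hp _ hd, mul_zero]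
  · intro a _
    simp only [PowerSeries.coeff_expand_mul]

end Expand

/-- **Cartier-type identity**: logarithmic derivatives are fixed by the Cartier operator. -/
theorem cartier {S : Type*} [CommRing S] [IsDomain S] [CharZero S] {k : Type*} [Field k]
    (p : ℕ) [Fact p.Prime] [CharP k p] (φ : S →+* k) (u v : S⟦X⟧) (huv : v * u = eul u)
    (hu0 : φ (coeff 0 u) ≠ 0) (n : ℕ) : φ (coeff (p * n) v) = φ (coeff n v) ^ p := by
  have hp : p ≠ 0 := (Fact.out : p.Prime).ne_zero
  have : ExpChar k p := ExpChar.prime (Fact.out)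
  -- step 1
  have h1 : ∀ n, coeff (p * n) (u ^ (p - 1) * eul u) = n * coeff (p * n) (u ^ p) := by
    intro n
    have h := congrArg (coeff (p * n)) (eul_pow u p)
    have e : ((p : S⟦X⟧)) = C (p : S) := by simp
    rw [coeff_eul, mul_assoc, e, PowerSeries.coeff_C_mul] at h
    have hpS : (p : S) ≠ 0 := Nat.cast_ne_zero.2 hp
    apply mul_left_cancel₀ hpS
    rw [← h]; push_cast; ring
  -- step 2
  have h2 : v * u ^ p = u ^ (p - 1) * eul u := by
    rw [← huv]
    obtain ⟨q, rfl⟩ : ∃ q, p = q + 1 := ⟨p - 1, by omega⟩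
    simp only [Nat.add_sub_cancel]; ring
  set U : k⟦X⟧ := PowerSeries.map φ u with hU
  set V : k⟦X⟧ := PowerSeries.map φ v with hV
  have hcu : ∀ m, coeff m U = φ (coeff m u) := fun m => by simp [hU]
  have hcv : ∀ m, coeff m V = φ (coeff m v) := fun m => by simp [hV]
  have h3 : ∀ n, coeff (p * n) (V * U ^ p) = n * coeff n U ^ p := by
    intro n
    have : V * U ^ p = PowerSeries.map φ (v * u ^ p) := by simp [hU, hV]
    rw [this, h2]
    rw [PowerSeries.coeff_map, h1, map_mul, map_natCast]
    congr 1
    rw [← PowerSeries.coeff_map, map_pow, ← hU, pow_char_eq p hp, PowerSeries.coeff_expand_mul]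
    simp [frobenius_def]
  have h4 : ∀ n, ∑ ab ∈ Finset.HasAntidiagonal.antidiagonal n, coeff (p * ab.1) V * coeff ab.2 U ^ p
      = n * coeff n U ^ p := by
    intro n
    rw [← h3 n, pow_char_eq p hp, coeff_mul_expand p hp]
    apply Finset.sum_congr rfl
    intro ab _
    simp [frobenius_def]
  have h5 : ∀ n, ∑ ab ∈ Finset.HasAntidiagonal.antidiagonal n, coeff ab.1 V ^ p * coeff ab.2 U ^ p
      = n * coeff n U ^ p := by
    intro n
    have h : V * U = eul U := by
      rw [hU, hV, ← map_mul, huv, map_eul]
    have h' := congrArg (coeff n) h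
    rw [coeff_mul, coeff_eul] at h'
    have h'' := congrArg (fun x => frobenius k p x) h'
    simp only [map_sum, map_mul, map_natCast, frobenius_def] at h''
    exact h''
  have key : ∀ n, coeff (p * n) V = coeff n V ^ p := by
    intro n
    induction n using Nat.strong_induction_on with
    | _ n ih =>
      have e := (h4 n).trans (h5 n).symm
      rw [← sub_eq_zero, ← Finset.sum_sub_distrib] at e
      have hsum : ∑ ab ∈ Finset.HasAntidiagonal.antidiagonal n,
          (coeff (p * ab.1) V * coeff ab.2 U ^ p - coeff ab.1 V ^ p * coeff ab.2 U ^ p)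
          = (coeff (p * n) V - coeff n V ^ p) * coeff 0 U ^ p := by
        rw [Finset.sum_eq_single (n, 0)]
        · ring
        · rintro ⟨a, b⟩ hab hne
          rw [Finset.HasAntidiagonal.mem_antidiagonal] at hab
          simp only at hab
          have : a < n := by
            rcases Nat.lt_or_ge a n with h | h
            · exact h
            · exfalso; apply hne
              have : b = 0 := by omega
              subst this; simp; omega
          simp only
          rw [ih a this]; ring
        · intro h; exfalso; apply h; simp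
      rw [hsum] at e
      rcases mul_eq_zero.1 e with h | h
      · exact sub_eq_zero.1 h
      · exfalso
        rw [hcu] at h
        exact hu0 (pow_eq_zero_iff hp |>.1 h)
  rw [← hcv, ← hcv, key]

end Pool.Agent.W_MP_b91de3_nt
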