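import Mathlib
import Pool.Agent.W_MP_b91de3_nt.Places
import Pool.Agent.W_MP_b91de3_nt.Cartier

set_option autoImplicit false

/-!
# Superlinearly integral power series

`sli K` is the ring of power series `u` over the number field `K` such that for every `M`, for
almost all primes `v` of `K`, all coefficients of `u` of index at most `M * p` (`p` the residue
characteristic of `v`) are `v`-integral.
-/

namespace Pool.Agent.W_MP_b91de3_nt

open IsDedekindDomain NumberField Filter PowerSeries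

variable {K : Type*} [Field K] [NumberField K]

/-- `u` has its coefficients of index `≤ N` in the subring `S`. -/
def Tn (S : Subring K) (N : ℕ) (u : K⟦X⟧) : Prop := ∀ j ≤ N, coeff j u ∈ S

omit [NumberField K] in
lemma Tn.add {S : Subring K} {N : ℕ} {u w : K⟦X⟧} (hu : Tn S N u) (hw : Tn S N w) :
    Tn S N (u + w) := fun j hj => by
  rw [map_add]; exact S.add_mem (hu j hj) (hw j hj)

omit [NumberField K] in
lemma Tn.neg {S : Subring K} {N : ℕ} {u : K⟦X⟧} (hu : Tn S N u) :
    Tn S N (-u) := fun j hj => by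
  rw [map_neg]; exact S.neg_mem (hu j hj)

omit [NumberField K] in
lemma Tn.mul {S : Subring K} {N : ℕ} {u w : K⟦X⟧} (hu : Tn S N u) (hw : Tn S N w) :
    Tn S N (u * w) := fun j hj => by
  rw [coeff_mul]
  apply S.sum_mem
  intro ab hab
  have := Finset.HasAntidiagonal.mem_antidiagonal.1 hab
  exact S.mul_mem (hu _ (by omega)) (hw _ (by omega))

omit [NumberField K] in
lemma Tn.one {S : Subring K} {N : ℕ} : Tn S N (1 : K⟦X⟧) := fun j _ => by
  rw [coeff_one]; split_ifs
  · exact S.one_mem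
  · exact S.zero_mem

omit [NumberField K] in
lemma Tn.zero {S : Subring K} {N : ℕ} : Tn S N (0 : K⟦X⟧) := fun j _ => by
  rw [map_zero]; exact S.zero_mem

omit [NumberField K] in
/-- division -/
lemma Tn.of_mul {S : Subring K} {N : ℕ} {w b : K⟦X⟧} (hb : Tn S N b)
    (h0 : coeff 0 b ≠ 0) (hinv : (coeff 0 b)⁻¹ ∈ S) (ha : Tn S N (w * b)) : Tn S N w := by
  intro j
  induction j using Nat.strong_induction_on with
  | _ j ih =>
    intro hj
    have h1 := ha j hj
    rw [coeff_mul, ← Finset.sum_erase_add _ _ (show (j, 0) ∈ Finset.HasAntidiagonal.antidiagonal j by simp)] at h1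
    have h2 : ∑ x ∈ (Finset.HasAntidiagonal.antidiagonal j).erase (j, 0),
        coeff x.1 w * coeff x.2 b ∈ S := by
      apply S.sum_mem
      rintro ⟨a, c⟩ hac
      rw [Finset.mem_erase] at hac
      have h3 := Finset.HasAntidiagonal.mem_antidiagonal.1 hac.2
      simp only at h3
      have h4 : a < j := by
        rcases Nat.lt_or_ge a j with h | h
        · exact h
        · exfalso; apply hac.1; ext <;> simp <;> omega
      exact S.mul_mem (ih a h4 (by omega)) (hb c (by omega))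
    have h5 : coeff j w * coeff 0 b ∈ S := by
      have := S.sub_mem h1 h2
      simpa using this
    have h6 := S.mul_mem h5 hinv
    rwa [mul_assoc, mul_inv_cancel₀ h0, mul_one] at h6

variable (K) in
/-- The ring of superlinearly integral power series. -/
noncomputable def sli : Subring K⟦X⟧ where
  carrier := {u | ∀ M : ℕ, ∀ᶠ v : HeightOneSpectrum (𝓞 K) in cofinite, Tn (Sv v) (M * pr v) u}
  mul_mem' := fun {a b} ha hb M => by
    filter_upwards [ha M, hb M] with v h1 h2 using h1.mul h2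
  one_mem' := fun M => Filter.Eventually.of_forall fun v => Tn.one
  add_mem' := fun {a b} ha hb M => by
    filter_upwards [ha M, hb M] with v h1 h2 using h1.add h2
  zero_mem' := fun M => Filter.Eventually.of_forall fun v => Tn.zero
  neg_mem' := fun {a} ha M => by
    filter_upwards [ha M] with v h1 using h1.neg

lemma mem_sli (u : K⟦X⟧) : u ∈ sli K ↔
    ∀ M : ℕ, ∀ᶠ v : HeightOneSpectrum (𝓞 K) in cofinite, Tn (Sv v) (M * pr v) u := Iff.rfl

lemma C_mem_sli (c : K) : (C c : K⟦X⟧) ∈ sli K := by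
  intro M
  filter_upwards [eventually_mem_Sv c] with v hv j _
  rw [coeff_C]; split_ifs
  · exact hv
  · exact (Sv v).zero_mem

lemma X_mem_sli : (X : K⟦X⟧) ∈ sli K := by
  intro M
  refine Filter.Eventually.of_forall fun v j _ => ?_
  rw [coeff_X]; split_ifs
  · exact (Sv v).one_mem
  · exact (Sv v).zero_mem

lemma derivative_mem_sli {u : K⟦X⟧} (hu : u ∈ sli K) : derivative K u ∈ sli K := by
  intro M
  filter_upwards [hu (M + 1)] with v hv j hj
  rw [coeff_derivative]
  have hp := (Fact.out : (pr v).Prime).pos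
  refine (Sv v).mul_mem (hv (j + 1) ?_) ?_
  · rw [add_mul]; omega
  · exact (Sv v).add_mem (natCast_mem _ _) (Sv v).one_mem

lemma of_X_pow_mul_mem_sli {u : K⟦X⟧} {e : ℕ} (hu : X ^ e * u ∈ sli K) : u ∈ sli K := by
  intro M
  filter_upwards [hu (M + e)] with v hv j hj
  have hp := (Fact.out : (pr v).Prime).pos
  have h := hv (j + e) (by
    rw [add_mul]
    have : e ≤ e * pr v := Nat.le_mul_of_pos_right _ hp
    omega)
  rwa [coeff_X_pow_mul] at h

lemma of_mul_mem_sli {w b : K⟦X⟧} (hb : b ∈ sli K) (h0 : coeff 0 b ≠ 0) (ha : w * b ∈ sli K) :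
    w ∈ sli K := by
  intro M
  filter_upwards [hb M, ha M, eventually_mem_Sv (coeff 0 b)⁻¹] with v h1 h2 h3
  exact Tn.of_mul h1 h0 h3 h2

/-- every nonzero series is `X ^ e` times a series with nonzero constant coefficient -/
lemma exists_X_pow_mul {k : Type*} [Field k] {u : k⟦X⟧} (hu : u ≠ 0) :
    ∃ (e : ℕ) (w : k⟦X⟧), u = X ^ e * w ∧ coeff 0 w ≠ 0 := by
  refine ⟨u.order.toNat, u.divXPowOrder, (X_pow_order_mul_divXPowOrder).symm, ?_⟩
  rw [PowerSeries.coeff_divXPowOrder]
  simpa using PowerSeries.coeff_order hu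

/-- total version of the reduction map -/
noncomputable def rd (v : HeightOneSpectrum (𝓞 K)) (x : K) : kf v :=
  open Classical in if h : x ∈ Sv v then red v ⟨x, h⟩ else 0

section rd

variable {v : HeightOneSpectrum (𝓞 K)}

lemma rd_of_mem {x : K} (h : x ∈ Sv v) : rd v x = red v ⟨x, h⟩ := by
  rw [rd, dif_pos h]

lemma rd_add {x y : K} (hx : x ∈ Sv v) (hy : y ∈ Sv v) : rd v (x + y) = rd v x + rd v y := by
  rw [rd_of_mem hx, rd_of_mem hy, rd_of_mem ((Sv v).add_mem hx hy), ← map_add]; rfl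

lemma rd_mul {x y : K} (hx : x ∈ Sv v) (hy : y ∈ Sv v) : rd v (x * y) = rd v x * rd v y := by
  rw [rd_of_mem hx, rd_of_mem hy, rd_of_mem ((Sv v).mul_mem hx hy), ← map_mul]; rfl

lemma rd_zero : rd v (0 : K) = 0 := by
  rw [rd_of_mem (Sv v).zero_mem]
  exact map_zero (red v)

lemma rd_one : rd v (1 : K) = 1 := by
  rw [rd_of_mem (Sv v).one_mem]
  exact map_one (red v)

lemma rd_neg {x : K} (hx : x ∈ Sv v) : rd v (-x) = - rd v x := by
  rw [rd_of_mem hx, rd_of_mem ((Sv v).neg_mem hx), ← map_neg]; rfl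

lemma rd_natCast (n : ℕ) : rd v (n : K) = n := by
  rw [rd_of_mem (natCast_mem (Sv v) n)]
  exact map_natCast (red v) n

lemma rd_sum {ι : Type*} (s : Finset ι) (f : ι → K) (hf : ∀ i ∈ s, f i ∈ Sv v) :
    rd v (∑ i ∈ s, f i) = ∑ i ∈ s, rd v (f i) := by
  classical
  induction s using Finset.induction_on with
  | empty => simp [rd_zero]
  | insert a s ha ih =>
    rw [Finset.sum_insert ha, Finset.sum_insert ha, rd_add (hf a (Finset.mem_insert_self _ _))
      ((Sv v).sum_mem fun i hi => hf i (Finset.mem_insert_of_mem hi)),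
      ih fun i hi => hf i (Finset.mem_insert_of_mem hi)]

lemma rd_ne_zero {x : K} (hx : x ∈ Sv v) (hx' : x⁻¹ ∈ Sv v) (h0 : x ≠ 0) : rd v x ≠ 0 := by
  intro h
  have h1 : rd v (x * x⁻¹) = rd v x * rd v x⁻¹ := rd_mul hx hx'
  rw [mul_inv_cancel₀ h0, rd_one, h, zero_mul] at h1
  exact one_ne_zero h1

end rd

/-- an element with zero reduction at infinitely many places is zero -/
lemma eq_zero_of_frequently {x : K}
    (h : ∀ᶠ v : HeightOneSpectrum (𝓞 K) in cofinite, rd v x = 0) : x = 0 := by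
  by_contra h0
  obtain ⟨v, h1, h2, h3⟩ := (h.and ((eventually_mem_Sv x).and (eventually_mem_Sv x⁻¹))).exists
  exact rd_ne_zero h2 h3 h0 h1

/-- truncated Cartier identity for units -/
lemma cartier_trunc (v : HeightOneSpectrum (𝓞 K)) (N : ℕ) (u w : K⟦X⟧) (hw : w * u = eul u)
    (hu : Tn (Sv v) N u) (h0 : coeff 0 u ≠ 0) (hinv : (coeff 0 u)⁻¹ ∈ Sv v) :
    Tn (Sv v) N w ∧ ∀ n, pr v * n ≤ N → rd v (coeff (pr v * n) w) = rd v (coeff n w) ^ pr v := by
  classical
  have hp := (Fact.out : (pr v).Prime).pos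
  have hu00 : coeff 0 u ∈ Sv v := hu 0 (Nat.zero_le _)
  have hT : Tn (Sv v) N w := by
    apply Tn.of_mul hu h0 hinv
    rw [hw]
    intro j hj
    rw [coeff_eul]
    exact (Sv v).mul_mem (natCast_mem _ _) (hu j hj)
  refine ⟨hT, ?_⟩
  -- truncated series over `Sv v`
  let ut : (Sv v)⟦X⟧ := PowerSeries.mk fun j => if h : j ≤ N then ⟨coeff j u, hu j h⟩ else 0
  have hut0 : coeff 0 ut = ⟨coeff 0 u, hu00⟩ := by simp [ut]
  let c : (Sv v)ˣ := ⟨⟨coeff 0 u, hu00⟩, ⟨(coeff 0 u)⁻¹, hinv⟩,
    Subtype.ext (mul_inv_cancel₀ h0), Subtype.ext (inv_mul_cancel₀ h0)⟩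
  let wt : (Sv v)⟦X⟧ := eul ut * PowerSeries.invOfUnit ut c
  have hwt : wt * ut = eul ut := by
    have : ut * PowerSeries.invOfUnit ut c = 1 := by
      apply PowerSeries.mul_invOfUnit
      rw [← coeff_zero_eq_constantCoeff_apply, hut0]
    calc wt * ut = eul ut * (ut * PowerSeries.invOfUnit ut c) := by simp only [wt]; ring
      _ = eul ut := by rw [this, mul_one]
  have hC := cartier (pr v) (red v) ut wt hwt (by
    rw [hut0, ← rd_of_mem]
    exact rd_ne_zero hu00 hinv h0)
  -- comparison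
  have hmapu : X ^ (N + 1) ∣ (u - PowerSeries.map (Sv v).subtype ut) := by
    rw [X_pow_dvd_iff]
    intro m hm
    have : m ≤ N := by omega
    simp [ut, this]
  have hmapw : X ^ (N + 1) ∣ (w - PowerSeries.map (Sv v).subtype wt) := by
    have e1 : (w - PowerSeries.map (Sv v).subtype wt) * u =
        eul (u - PowerSeries.map (Sv v).subtype ut)
          - PowerSeries.map (Sv v).subtype wt * (u - PowerSeries.map (Sv v).subtype ut) := by
      have e2 : PowerSeries.map (Sv v).subtype wt * PowerSeries.map (Sv v).subtype ut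
          = eul (PowerSeries.map (Sv v).subtype ut) := by
        rw [← map_mul, hwt, map_eul]
      rw [eul_sub, ← hw, ← e2]; ring
    have h3 : X ^ (N + 1) ∣ eul (u - PowerSeries.map (Sv v).subtype ut) := by
      rw [X_pow_dvd_iff] at hmapu ⊢
      intro m hm
      rw [coeff_eul, hmapu m hm, mul_zero]
    have h4 : X ^ (N + 1) ∣ (w - PowerSeries.map (Sv v).subtype wt) * u := by
      rw [e1]
      exact dvd_sub h3 (Dvd.dvd.mul_left hmapu _)
    have hun : IsUnit u := by
      rw [PowerSeries.isUnit_iff_constantCoeff, isUnit_iff_ne_zero,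
        ← coeff_zero_eq_constantCoeff_apply]
      exact h0
    exact (IsUnit.dvd_mul_right hun).1 h4
  have hcoef : ∀ j, (hj : j ≤ N) → rd v (coeff j w) = red v (coeff j wt) := by
    intro j hj
    have h5 := (X_pow_dvd_iff.1 hmapw) j (by omega)
    rw [map_sub, sub_eq_zero, PowerSeries.coeff_map] at h5
    rw [rd_of_mem (hT j hj)]
    congr 1
    exact Subtype.ext h5
  intro n hn
  have hn' : n ≤ N := le_trans (Nat.le_mul_of_pos_left _ hp) hn
  rw [hcoef _ hn, hcoef n hn', hC]

/-- Cartier identity for nonzero superlinearly integral series -/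
lemma cartier_sli {u w : K⟦X⟧} (hw : w * u = eul u) (hu : u ∈ sli K) (hu0 : u ≠ 0) (M : ℕ) :
    ∀ᶠ v : HeightOneSpectrum (𝓞 K) in cofinite, Tn (Sv v) (M * pr v) w ∧
      ∀ n ≤ M, rd v (coeff (pr v * n) w) = rd v (coeff n w) ^ pr v := by
  obtain ⟨e, u1, rfl, h0⟩ := exists_X_pow_mul hu0
  have hu1 : u1 ∈ sli K := of_X_pow_mul_mem_sli hu
  -- `w = e + w1`
  have hw1 : (w - C (e : K)) * u1 = eul u1 := by
    have hX : (X : K⟦X⟧) ^ e ≠ 0 := pow_ne_zero _ X_ne_zero
    apply mul_left_cancel₀ hX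
    have : X ^ e * eul u1 = eul (X ^ e * u1) - u1 * eul (X ^ e) := by
      rw [eul_mul]; ring
    rw [this, ← hw, eul_X_pow]
    have hC : (C (e : K) : K⟦X⟧) = (e : K⟦X⟧) := by simp
    rw [hC]; ring
  filter_upwards [hu1 M, eventually_mem_Sv (coeff 0 u1)⁻¹] with v h1 h2
  obtain ⟨h3, h4⟩ := cartier_trunc v (M * pr v) u1 (w - C (e : K)) hw1 h1 h0 h2
  have hCe : Tn (Sv v) (M * pr v) (C (e : K) : K⟦X⟧) := by
    intro j _
    rw [coeff_C]; split_ifs
    · exact natCast_mem _ _
    · exact (Sv v).zero_mem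
  have hT : Tn (Sv v) (M * pr v) w := by
    have := h3.add hCe
    simpa using this
  refine ⟨hT, ?_⟩
  intro n hn
  have hp := (Fact.out : (pr v).Prime).pos
  have hn1 : pr v * n ≤ M * pr v := by rw [mul_comm]; exact Nat.mul_le_mul_right _ hn
  have hn2 : n ≤ M * pr v := le_trans (Nat.le_mul_of_pos_left _ hp) hn1
  have key : ∀ j ≤ M * pr v, rd v (coeff j w) =
      rd v (coeff j (w - C (e : K))) + rd v (coeff j (C (e : K) : K⟦X⟧)) := by
    intro j hj
    rw [← rd_add (h3 j hj) (hCe j hj), ← map_add]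
    simp
  rw [key _ hn1, key n hn2, h4 n hn1]
  have hfr : (rd v (coeff n (w - C (e : K))) + rd v (coeff n (C (e : K) : K⟦X⟧))) ^ pr v =
      rd v (coeff n (w - C (e : K))) ^ pr v + rd v (coeff n (C (e : K) : K⟦X⟧)) ^ pr v :=
    map_add (frobenius (kf v) (pr v)) _ _
  rw [hfr]
  congr 1
  rw [coeff_C, coeff_C]
  by_cases hn0 : n = 0
  · subst hn0
    simp only [mul_zero, if_true, rd_natCast]
    have h6 : frobenius (kf v) (pr v) (e : kf v) = (e : kf v) := map_natCast _ e
    rw [frobenius_def] at h6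
    exact h6.symm
  · have : pr v * n ≠ 0 := by positivity
    rw [if_neg this, if_neg hn0, rd_zero, zero_pow hp.ne']

end Pool.Agent.W_MP_b91de3_nt
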