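import Mathlib
import Pool.Agent.W_MP_b91de3_nt.Sli

set_option autoImplicit false

/-!
# Integral relations between logarithmic derivatives come from multiplicative relations
-/

namespace Pool.Agent.W_MP_b91de3_nt

open PowerSeries

section Basic

variable {k : Type*} [Field k] [CharZero k]

lemma eq_C_of_eul_eq_zero {T : k⟦X⟧} (h : eul T = 0) : T = C (coeff 0 T) := by
  ext n
  rw [coeff_C]
  split_ifs with hn
  · rw [hn]
  · have h1 := congrArg (coeff n) h
    rw [coeff_eul, map_zero] at h1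
    rcases mul_eq_zero.1 h1 with h2 | h2
    · exact absurd (Nat.cast_eq_zero.1 h2) hn
    · exact h2

lemma const_of_dvd {A B : k⟦X⟧} (hB : B ≠ 0) (h : eul A * B = A * eul B) (hd : B ∣ A) :
    ∃ c : k, A = C c * B := by
  obtain ⟨T, rfl⟩ := hd
  have h1 : B * B * eul T = 0 := by
    rw [eul_mul] at h
    linear_combination h
  have h2 : eul T = 0 := by
    rcases mul_eq_zero.1 h1 with h3 | h3
    · exact absurd (mul_self_eq_zero.1 h3) hB
    · exact h3
  refine ⟨coeff 0 T, ?_⟩
  conv_lhs => rw [eq_C_of_eul_eq_zero h2]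
  ring

lemma const_of_eul {A B : k⟦X⟧} (hA : A ≠ 0) (hB : B ≠ 0) (h : eul A * B = A * eul B) :
    ∃ c : k, A = C c * B := by
  rcases ValuationRing.dvd_total A B with hd | hd
  · obtain ⟨c, hc⟩ := const_of_dvd hA (by linear_combination -h) hd
    have hc0 : c ≠ 0 := by
      rintro rfl
      apply hB; rw [hc]; simp
    refine ⟨c⁻¹, ?_⟩
    rw [hc, ← mul_assoc, ← map_mul, inv_mul_cancel₀ hc0, map_one, one_mul]
  · exact const_of_dvd hB h hd

omit [CharZero k] in
lemma eul_prod {τ : Type*} (s : Finset τ) (u w : τ → k⟦X⟧)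
    (hw : ∀ i, w i * u i = eul (u i)) (m : τ → ℕ) :
    eul (∏ i ∈ s, u i ^ m i) = (∑ i ∈ s, (m i : k⟦X⟧) * w i) * ∏ i ∈ s, u i ^ m i := by
  classical
  induction s using Finset.induction_on with
  | empty =>
    simp only [Finset.prod_empty, Finset.sum_empty, zero_mul]
    have := eul_C (1 : k)
    simpa using this
  | insert a s ha ih =>
    rw [Finset.prod_insert ha, Finset.sum_insert ha, eul_mul, ih, eul_pow, ← hw a]
    rcases Nat.eq_zero_or_pos (m a) with h0 | h0
    · rw [h0]; simp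
    · obtain ⟨q, hq⟩ : ∃ q, m a = q + 1 := ⟨m a - 1, by omega⟩
      rw [hq]
      simp only [Nat.add_sub_cancel]
      push_cast
      ring

/-- integral relation between the logarithmic derivatives ⇒ multiplicative relation -/
lemma mult_rel {τ : Type*} [Fintype τ] (u w : τ → k⟦X⟧) (hu0 : ∀ i, u i ≠ 0)
    (hw : ∀ i, w i * u i = eul (u i)) (a b : τ → ℕ)
    (hrel : ∑ i, (a i : k⟦X⟧) * w i = ∑ i, (b i : k⟦X⟧) * w i) :
    ∃ c : k, ∏ i, u i ^ a i = C c * ∏ i, u i ^ b i := by
  apply const_of_eul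
  · exact Finset.prod_ne_zero_iff.2 fun i _ => pow_ne_zero _ (hu0 i)
  · exact Finset.prod_ne_zero_iff.2 fun i _ => pow_ne_zero _ (hu0 i)
  · rw [eul_prod _ u w hw, eul_prod _ u w hw, hrel]; ring

end Basic

section Derivations

/-- logarithmic derivative of a product -/
lemma der_prod {R E : Type*} [CommRing R] [Field E] [Algebra R E] (D : Derivation R E E)
    {τ : Type*} (s : Finset τ) (U : τ → E) (hU : ∀ i, U i ≠ 0) (m : τ → ℕ) :
    D (∏ i ∈ s, U i ^ m i) = (∑ i ∈ s, (m i : E) * (D (U i) / U i)) * ∏ i ∈ s, U i ^ m i := by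
  classical
  induction s using Finset.induction_on with
  | empty => simp
  | insert a s ha ih =>
    rw [Finset.prod_insert ha, Finset.sum_insert ha, Derivation.leibniz, ih,
      Derivation.leibniz_pow]
    have h := hU a
    rcases Nat.eq_zero_or_pos (m a) with h0 | h0
    · rw [h0]; simp only [smul_eq_mul]; simp
    · obtain ⟨q, hq⟩ : ∃ q, m a = q + 1 := ⟨m a - 1, by omega⟩
      rw [hq]
      simp only [Nat.add_sub_cancel, smul_eq_mul, nsmul_eq_mul]
      push_cast
      field_simp
      ring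

lemma der_rel {R E : Type*} [CommRing R] [Field E] [Algebra R E] (D : Derivation R E E)
    {τ : Type*} [Fintype τ] (U : τ → E) (hU : ∀ i, U i ≠ 0) (a b : τ → ℕ) (c : E) (hc : D c = 0)
    (h : ∏ i, U i ^ a i = c * ∏ i, U i ^ b i) :
    ∑ i, (a i : E) * (D (U i) / U i) = ∑ i, (b i : E) * (D (U i) / U i) := by
  have h1 := congrArg D h
  rw [Derivation.leibniz, hc, smul_zero, add_zero, smul_eq_mul, der_prod D _ U hU,
    der_prod D _ U hU, mul_left_comm, ← h] at h1
  have hne : ∏ i, U i ^ a i ≠ 0 := Finset.prod_ne_zero_iff.2 fun i _ => pow_ne_zero _ (hU i)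
  exact mul_right_cancel₀ hne h1

end Derivations

end Pool.Agent.W_MP_b91de3_nt
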