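import Mathlib
import Pool.Agent.W_MP_b91de3_nt.Const

set_option autoImplicit false

/-!
# Rational relations between logarithmic derivatives persist for all derivations
-/

namespace Pool.Agent.W_MP_b91de3_nt

open PowerSeries

lemma exists_common_den {τ : Type*} [Fintype τ] (m : τ → ℚ) :
    ∃ (d : ℕ) (a b : τ → ℕ), d ≠ 0 ∧ ∀ i, m i * d = (a i : ℚ) - b i := by
  classical
  refine ⟨∏ i, (m i).den, fun i => ((m i).num * ∏ j ∈ Finset.univ.erase i, ((m j).den : ℤ)).toNat,
    fun i => (-((m i).num * ∏ j ∈ Finset.univ.erase i, ((m j).den : ℤ))).toNat,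
    Finset.prod_ne_zero_iff.2 fun i _ => (m i).den_nz, ?_⟩
  intro i
  set z : ℤ := (m i).num * ∏ j ∈ Finset.univ.erase i, ((m j).den : ℤ) with hz
  have h1 : m i * ((∏ i, (m i).den : ℕ) : ℚ) = (z : ℚ) := by
    rw [← Finset.mul_prod_erase _ _ (Finset.mem_univ i), hz]
    push_cast
    rw [← mul_assoc, Rat.mul_den_eq_num]
  rw [h1]
  have h2 : ((z.toNat : ℤ)) - ((-z).toNat : ℤ) = z := Int.toNat_sub_toNat_neg z
  have h3 : (((z.toNat : ℤ) : ℚ)) - (((-z).toNat : ℤ) : ℚ) = z := by exact_mod_cast h2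
  rw [← h3]
  simp only [Int.cast_natCast]
  rfl

variable {K : Type*} [Field K] [CharZero K]

lemma dlog_rel {E : Type*} [Field E] [Algebra K E] (e : E →+* LaurentSeries K)
    (he : ∀ c : K, e (algebraMap K E c) = HahnSeries.ofPowerSeries ℤ K (C c))
    (D : Derivation K E E) {τ : Type*} [Fintype τ] (U : τ → E) (u w : τ → K⟦X⟧)
    (hU : ∀ i, e (U i) = HahnSeries.ofPowerSeries ℤ K (u i)) (hu0 : ∀ i, u i ≠ 0)
    (hw : ∀ i, w i * u i = eul (u i)) (m : τ → ℚ)
    (hrel : ∑ i, C ((m i : ℚ) : K) * w i = 0) :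
    ∑ i, algebraMap K E ((m i : ℚ) : K) * (D (U i) / U i) = 0 := by
  classical
  have : CharZero E := charZero_of_injective_algebraMap (algebraMap K E).injective
  obtain ⟨d, a, b, hd, hm⟩ := exists_common_den m
  have hmK : ∀ i, ((m i : ℚ) : K) * d = (a i : K) - b i := by
    intro i
    have := congrArg (fun q : ℚ => (q : K)) (hm i)
    simpa using this
  have h1 : ∑ i, (a i : K⟦X⟧) * w i = ∑ i, (b i : K⟦X⟧) * w i := by
    rw [← sub_eq_zero, ← Finset.sum_sub_distrib]
    have h2 : ∑ i, ((a i : K⟦X⟧) * w i - (b i : K⟦X⟧) * w i) =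
        C (d : K) * ∑ i, C ((m i : ℚ) : K) * w i := by
      rw [Finset.mul_sum]
      apply Finset.sum_congr rfl
      intro i _
      rw [← mul_assoc, ← map_mul, mul_comm (d : K), hmK i]
      simp only [map_sub, map_natCast]
      ring
    rw [h2, hrel, mul_zero]
  obtain ⟨c, hc⟩ := mult_rel u w hu0 hw a b h1
  have hU0 : ∀ i, U i ≠ 0 := by
    intro i h0
    have h2 := hU i
    rw [h0, map_zero] at h2
    apply hu0 i
    have h3 : HahnSeries.ofPowerSeries ℤ K (u i) = HahnSeries.ofPowerSeries ℤ K 0 := by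
      rw [map_zero]; exact h2.symm
    exact HahnSeries.ofPowerSeries_injective h3
  have hcE : ∏ i, U i ^ a i = algebraMap K E c * ∏ i, U i ^ b i := by
    apply e.injective
    rw [map_prod, map_mul, map_prod, he]
    simp only [map_pow, hU]
    have h2 := congrArg (HahnSeries.ofPowerSeries ℤ K) hc
    rw [map_prod, map_mul, map_prod] at h2
    simp only [map_pow] at h2
    exact h2
  have h5 := der_rel D U hU0 a b (algebraMap K E c) (D.map_algebraMap c) hcE
  have hdE : (d : E) ≠ 0 := Nat.cast_ne_zero.2 hd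
  apply mul_left_cancel₀ hdE
  rw [mul_zero, Finset.mul_sum]
  rw [← sub_eq_zero, ← Finset.sum_sub_distrib] at h5
  rw [← h5]
  apply Finset.sum_congr rfl
  intro i _
  have h6 := congrArg (algebraMap K E) (hmK i)
  simp only [map_mul, map_sub, map_natCast] at h6
  linear_combination (D (U i) / U i) * h6

end Pool.Agent.W_MP_b91de3_nt
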