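import Mathlib

set_option autoImplicit false

/-!
# Counting ideals

If in a number field `F` every large rational prime `p` is the norm of two different prime ideals,
then the number of ideals of norm at most `X` grows faster than linearly, which contradicts the
class number formula.
-/

namespace Pool.Agent.W_MP_b91de3_nt

open NumberField Filter UniqueFactorizationMonoid

variable {F : Type*} [Field F] [NumberField F]

/-- product of the primes `P p` over the prime factors of `n` -/
noncomputable def JJ (P : ℕ → Ideal (𝓞 F)) (n : ℕ) : Ideal (𝓞 F) :=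
  (Multiset.map P (n.primeFactorsList : Multiset ℕ)).prod

lemma absNorm_JJ {P : ℕ → Ideal (𝓞 F)} {n : ℕ} (hn : n ≠ 0)
    (h : ∀ p ∈ n.primeFactorsList, Ideal.absNorm (P p) = p) : Ideal.absNorm (JJ P n) = n := by
  unfold JJ
  rw [map_multiset_prod, Multiset.map_map]
  have : Multiset.map ((fun I => Ideal.absNorm I) ∘ P) (n.primeFactorsList : Multiset ℕ)
      = (n.primeFactorsList : Multiset ℕ) := by
    conv_rhs => rw [← Multiset.map_id (n.primeFactorsList : Multiset ℕ)]
    apply Multiset.map_congr rfl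
    intro p hp
    simp only [Function.comp, id]
    exact h p (by simpa using hp)
  erw [this]
  simpa using Nat.prod_primeFactorsList hn

lemma JJ_injective {P Q : ℕ → Ideal (𝓞 F)} {P0 : ℕ}
    (hP : ∀ p, p.Prime → P0 ≤ p → (P p).IsPrime ∧ Ideal.absNorm (P p) = p)
    (hQ : ∀ p, p.Prime → P0 ≤ p → (Q p).IsPrime ∧ Ideal.absNorm (Q p) = p)
    (hPQ : ∀ p, p.Prime → P0 ≤ p → P p ≠ Q p)
    {m n m' n' : ℕ} (hm : m ≠ 0) (hn : n ≠ 0) (hm' : m' ≠ 0) (hn' : n' ≠ 0)
    (rm : ∀ p ∈ m.primeFactorsList, P0 ≤ p) (rn : ∀ p ∈ n.primeFactorsList, P0 ≤ p)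
    (rm' : ∀ p ∈ m'.primeFactorsList, P0 ≤ p) (rn' : ∀ p ∈ n'.primeFactorsList, P0 ≤ p)
    (h : JJ P m * JJ Q n = JJ P m' * JJ Q n') : m = m' ∧ n = n' := by
  classical
  have hne : ∀ (R : ℕ → Ideal (𝓞 F)), (∀ p, p.Prime → P0 ≤ p → (R p).IsPrime ∧
      Ideal.absNorm (R p) = p) → ∀ p, p.Prime → P0 ≤ p → Prime (R p) := by
    intro R hR p hp hp0
    have h1 := hR p hp hp0
    apply Ideal.prime_of_isPrime _ h1.1
    intro h0
    have := h1.2
    rw [h0] at this
    simp at this
    exact hp.ne_zero this.symm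
  have hfac : ∀ a b : ℕ, (∀ p ∈ a.primeFactorsList, P0 ≤ p) → (∀ p ∈ b.primeFactorsList, P0 ≤ p) →
      normalizedFactors (JJ P a * JJ Q b) = Multiset.map P (a.primeFactorsList : Multiset ℕ) +
        Multiset.map Q (b.primeFactorsList : Multiset ℕ) := by
    intro a b ha hb
    unfold JJ
    rw [← Multiset.prod_add]
    apply normalizedFactors_prod_of_prime
    intro I hI
    rw [Multiset.mem_add] at hI
    rcases hI with hI | hI
    · obtain ⟨p, hp, rfl⟩ := Multiset.mem_map.1 hI
      have hp' : p ∈ a.primeFactorsList := by simpa using hp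
      exact hne P hP p (Nat.prime_of_mem_primeFactorsList hp') (ha p hp')
    · obtain ⟨p, hp, rfl⟩ := Multiset.mem_map.1 hI
      have hp' : p ∈ b.primeFactorsList := by simpa using hp
      exact hne Q hQ p (Nat.prime_of_mem_primeFactorsList hp') (hb p hp')
  let R : Ideal (𝓞 F) → Prop := fun I => ∃ p, p.Prime ∧ P0 ≤ p ∧ I = P p
  have hR1 : ∀ a : ℕ, (∀ p ∈ a.primeFactorsList, P0 ≤ p) →
      ∀ I ∈ Multiset.map P (a.primeFactorsList : Multiset ℕ), R I := by
    intro a ha I hI
    obtain ⟨p, hp, rfl⟩ := Multiset.mem_map.1 hI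
    have hp' : p ∈ a.primeFactorsList := by simpa using hp
    exact ⟨p, Nat.prime_of_mem_primeFactorsList hp', ha p hp', rfl⟩
  have hR2 : ∀ a : ℕ, (∀ p ∈ a.primeFactorsList, P0 ≤ p) →
      ∀ I ∈ Multiset.map Q (a.primeFactorsList : Multiset ℕ), ¬ R I := by
    intro a ha I hI
    obtain ⟨p, hp, rfl⟩ := Multiset.mem_map.1 hI
    have hp' : p ∈ a.primeFactorsList := by simpa using hp
    have hpp := Nat.prime_of_mem_primeFactorsList hp'
    rintro ⟨q, hq, hq0, e⟩
    have h1 := (hQ p hpp (ha p hp')).2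
    have h2 := (hP q hq hq0).2
    rw [e, h2] at h1
    subst h1
    exact hPQ q hq hq0 e.symm
  have hmap : ∀ (P : ℕ → Ideal (𝓞 F)), (∀ p, p.Prime → P0 ≤ p → (P p).IsPrime ∧
      Ideal.absNorm (P p) = p) → ∀ a a' : ℕ, a ≠ 0 → a' ≠ 0 →
      (∀ p ∈ a.primeFactorsList, P0 ≤ p) → (∀ p ∈ a'.primeFactorsList, P0 ≤ p) →
      Multiset.map P (a.primeFactorsList : Multiset ℕ) =
        Multiset.map P (a'.primeFactorsList : Multiset ℕ) → a = a' := by
    intro P hP a a' ha ha' ra ra' e
    have e2 := congrArg (fun s => Ideal.absNorm (Multiset.prod s)) e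
    have e3 := absNorm_JJ (P := P) ha (fun p hp =>
      (hP p (Nat.prime_of_mem_primeFactorsList hp) (ra p hp)).2)
    have e4 := absNorm_JJ (P := P) ha' (fun p hp =>
      (hP p (Nat.prime_of_mem_primeFactorsList hp) (ra' p hp)).2)
    unfold JJ at e3 e4
    simp only [e3, e4] at e2
    exact e2
  have e := congrArg normalizedFactors h
  rw [hfac m n rm rn, hfac m' n' rm' rn'] at e
  constructor
  · have e1 := congrArg (Multiset.filter R) e
    rw [Multiset.filter_add, Multiset.filter_add, Multiset.filter_eq_self.2 (hR1 m rm),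
      Multiset.filter_eq_self.2 (hR1 m' rm'), Multiset.filter_eq_nil.2 (hR2 n rn),
      Multiset.filter_eq_nil.2 (hR2 n' rn'), add_zero, add_zero] at e1
    exact hmap P hP m m' hm hm' rm rm' e1
  · have e1 := congrArg (Multiset.filter (fun I => ¬ R I)) e
    rw [Multiset.filter_add, Multiset.filter_add,
      Multiset.filter_eq_nil.2 (fun I hI => not_not.2 (hR1 m rm I hI)),
      Multiset.filter_eq_nil.2 (fun I hI => not_not.2 (hR1 m' rm' I hI)),
      Multiset.filter_eq_self.2 (hR2 n rn),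
      Multiset.filter_eq_self.2 (hR2 n' rn'), zero_add, zero_add] at e1
    exact hmap Q hQ n n' hn hn' rn rn' e1

lemma rough (P0 t : ℕ) : ∀ p ∈ (1 + t * P0.factorial).primeFactorsList, P0 ≤ p := by
  intro p hp
  by_contra hlt
  push Not at hlt
  have hpp := Nat.prime_of_mem_primeFactorsList hp
  have h1 : p ∣ 1 + t * P0.factorial := Nat.dvd_of_mem_primeFactorsList hp
  have h2 : p ∣ t * P0.factorial :=
    Dvd.dvd.mul_left (Nat.dvd_factorial hpp.pos hlt.le) _
  have h3 : p ∣ 1 := (Nat.dvd_add_left h2).1 h1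
  exact hpp.one_lt.ne' (Nat.dvd_one.1 h3)

/-- lower bound for the number of ideals -/
lemma count_lower {P Q : ℕ → Ideal (𝓞 F)} {P0 : ℕ}
    (hP : ∀ p, p.Prime → P0 ≤ p → (P p).IsPrime ∧ Ideal.absNorm (P p) = p)
    (hQ : ∀ p, p.Prime → P0 ≤ p → (Q p).IsPrime ∧ Ideal.absNorm (Q p) = p)
    (hPQ : ∀ p, p.Prime → P0 ≤ p → P p ≠ Q p) (T X : ℕ) :
    ∑ t ∈ Finset.range T, ((X : ℝ) / ((1 + t * P0.factorial) * P0.factorial) - 1) ≤
      Nat.card {I : Ideal (𝓞 F) // (Ideal.absNorm I : ℝ) ≤ (X : ℝ)} := by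
  classical
  set q := P0.factorial with hq
  have hq0 : 0 < q := Nat.factorial_pos _
  let A : Finset (ℕ × ℕ) := (Finset.range T ×ˢ Finset.range (X + 1)).filter
    (fun ts => (1 + ts.1 * q) * (1 + ts.2 * q) ≤ X)
  have hfin : Finite {I : Ideal (𝓞 F) // (Ideal.absNorm I : ℝ) ≤ (X : ℝ)} := by
    have := Ideal.finite_setOfPred_absNorm_le (S := 𝓞 F) X
    refine (this.subset ?_).to_subtype
    intro I hI
    have : (Ideal.absNorm I : ℝ) ≤ (X : ℝ) := hI
    exact_mod_cast this
  let f : A → {I : Ideal (𝓞 F) // (Ideal.absNorm I : ℝ) ≤ (X : ℝ)} := fun a =>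
    ⟨JJ P (1 + a.1.1 * q) * JJ Q (1 + a.1.2 * q), by
      have ha := (Finset.mem_filter.1 a.2).2
      rw [map_mul, absNorm_JJ (by omega) (fun p hp => (hP p
        (Nat.prime_of_mem_primeFactorsList hp) (rough P0 a.1.1 p hp)).2),
        absNorm_JJ (by omega) (fun p hp => (hQ p
        (Nat.prime_of_mem_primeFactorsList hp) (rough P0 a.1.2 p hp)).2)]
      exact_mod_cast ha⟩
  have hf : Function.Injective f := by
    rintro ⟨⟨t, s⟩, h1⟩ ⟨⟨t', s'⟩, h2⟩ e
    have e' : JJ P (1 + t * q) * JJ Q (1 + s * q) = JJ P (1 + t' * q) * JJ Q (1 + s' * q) :=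
      congrArg Subtype.val e
    have := JJ_injective hP hQ hPQ (by omega) (by omega) (by omega) (by omega)
      (rough P0 t) (rough P0 s) (rough P0 t') (rough P0 s') e'
    have e1 : t = t' := by
      have := this.1
      have : t * q = t' * q := by rw [hq]; omega
      exact Nat.eq_of_mul_eq_mul_right hq0 this
    have e2 : s = s' := by
      have := this.2
      have : s * q = s' * q := by rw [hq]; omega
      exact Nat.eq_of_mul_eq_mul_right hq0 this
    subst e1; subst e2; rfl
  have hcard : A.card ≤ Nat.card {I : Ideal (𝓞 F) // (Ideal.absNorm I : ℝ) ≤ (X : ℝ)} := by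
    have := Nat.card_le_card_of_injective f hf
    simpa using this
  have hA : ∑ t ∈ Finset.range T, X / ((1 + t * q) * q) ≤ A.card := by
    have h1 : ((Finset.range T).sigma (fun t => Finset.range (X / ((1 + t * q) * q)))).card
        = ∑ t ∈ Finset.range T, X / ((1 + t * q) * q) := by
      rw [Finset.card_sigma]; simp
    rw [← h1]
    refine Finset.card_le_card_of_injOn (fun a => (a.1, a.2)) ?_ ?_
    · rintro ⟨t, s⟩ hts
      simp only [Finset.mem_coe, Finset.mem_sigma, Finset.mem_range] at hts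
      obtain ⟨ht, hs⟩ := hts
      have h2 : (s + 1) * ((1 + t * q) * q) ≤ X := by
        have := (Nat.le_div_iff_mul_le (by positivity)).1 (Nat.succ_le_of_lt hs)
        exact this
      have h3 : (1 + t * q) * (1 + s * q) ≤ X := by
        refine le_trans ?_ h2
        have : 1 + s * q ≤ (s + 1) * q := by nlinarith
        calc (1 + t * q) * (1 + s * q) ≤ (1 + t * q) * ((s + 1) * q) :=
              Nat.mul_le_mul_left _ this
          _ = (s + 1) * ((1 + t * q) * q) := by ring
      have h4 : s < X + 1 := by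
        have : s + 1 ≤ (s + 1) * ((1 + t * q) * q) :=
          Nat.le_mul_of_pos_right _ (by positivity)
        omega
      simp only [A, Finset.coe_filter, Finset.mem_product, Finset.mem_range, Set.mem_ofPred_eq]
      exact ⟨⟨ht, h4⟩, h3⟩
    · rintro ⟨t, s⟩ _ ⟨t', s'⟩ _ e
      simp only [Prod.mk.injEq] at e
      obtain ⟨rfl, rfl⟩ := e
      rfl
  have h5 : ∑ t ∈ Finset.range T, ((X : ℝ) / ((1 + t * q) * q) - 1) ≤
      ((∑ t ∈ Finset.range T, X / ((1 + t * q) * q) : ℕ) : ℝ) := by
    rw [Nat.cast_sum]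
    apply Finset.sum_le_sum
    intro t _
    have hm : (0 : ℝ) < (1 + t * q) * q := by positivity
    have hlt : X < (X / ((1 + t * q) * q) + 1) * ((1 + t * q) * q) := by
      rw [mul_comm]
      exact Nat.lt_mul_div_succ X (by positivity)
    have hlt' : (X : ℝ) < ((X / ((1 + t * q) * q) : ℕ) + 1) * ((1 + t * q) * q) := by
      exact_mod_cast hlt
    have := (div_lt_iff₀ hm).2 hlt'
    linarith
  refine h5.trans ?_
  exact_mod_cast hA.trans hcard

/-- contradiction with the class number formula -/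
theorem no_two_primes {P Q : ℕ → Ideal (𝓞 F)} {P0 : ℕ}
    (hP : ∀ p, p.Prime → P0 ≤ p → (P p).IsPrime ∧ Ideal.absNorm (P p) = p)
    (hQ : ∀ p, p.Prime → P0 ≤ p → (Q p).IsPrime ∧ Ideal.absNorm (Q p) = p)
    (hPQ : ∀ p, p.Prime → P0 ≤ p → P p ≠ Q p) : False := by
  have hlim := NumberField.Ideal.tendsto_norm_le_div_atTop F
  set κ := ((2 ^ InfinitePlace.nrRealPlaces F * (2 * Real.pi) ^ InfinitePlace.nrComplexPlaces F *
    Units.regulator F * classNumber F) / (Units.torsionOrder F * Real.sqrt |discr F|)) with hκ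
  have hlim2 := hlim.comp tendsto_natCast_atTop_atTop
  set q := P0.factorial with hq
  have hq0 : 0 < q := Nat.factorial_pos _
  have hbound : ∀ T : ℕ, ∑ t ∈ Finset.range T, 1 / (((1 : ℝ) + t * q) * q) ≤ κ := by
    intro T
    set c := ∑ t ∈ Finset.range T, 1 / (((1 : ℝ) + t * q) * q) with hc
    have hl : Tendsto (fun X : ℕ => c - (T : ℝ) / (X : ℝ)) atTop (nhds (c - 0)) :=
      tendsto_const_nhds.sub (tendsto_const_nhds.div_atTop tendsto_natCast_atTop_atTop)
    rw [sub_zero] at hl
    refine le_of_tendsto_of_tendsto hl hlim2 ?_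
    filter_upwards [eventually_gt_atTop 0] with X hX
    have hX' : (0 : ℝ) < X := Nat.cast_pos.2 hX
    have h := count_lower hP hQ hPQ T X
    have h2 : ∑ t ∈ Finset.range T, ((X : ℝ) / ((1 + t * P0.factorial) * P0.factorial) - 1)
        = X * c - T := by
      rw [Finset.sum_sub_distrib, hc, Finset.mul_sum]
      simp only [Finset.sum_const, Finset.card_range, nsmul_eq_mul, mul_one]
      congr 1
      apply Finset.sum_congr rfl
      intro t _
      rw [mul_one_div]
    rw [h2] at h
    simp only [Function.comp]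
    rw [le_div_iff₀ hX']
    have : (c - (T : ℝ) / X) * X = X * c - T := by field_simp
    rw [this]
    exact h
  have hdiv : Tendsto (fun T : ℕ => ∑ t ∈ Finset.range T, 1 / (((1 : ℝ) + t * q) * q)) atTop atTop := by
    have h1 : ∀ T : ℕ, (1 / ((q : ℝ) * (q + 1))) * ∑ t ∈ Finset.range T, 1 / ((t : ℝ) + 1) ≤
        ∑ t ∈ Finset.range T, 1 / (((1 : ℝ) + t * q) * q) := by
      intro T
      rw [Finset.mul_sum]
      apply Finset.sum_le_sum
      intro t _
      rw [one_div_mul_one_div]
      have hq' : (0 : ℝ) < q := Nat.cast_pos.2 hq0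
      apply one_div_le_one_div_of_le (by positivity)
      have ht : (0 : ℝ) ≤ t := Nat.cast_nonneg t
      nlinarith [mul_nonneg ht hq'.le]
    have h2 : Tendsto (fun T : ℕ => ∑ t ∈ Finset.range T, 1 / ((t : ℝ) + 1)) atTop atTop :=
      Real.tendsto_sum_range_one_div_nat_succ_atTop
    have h3 := h2.const_mul_atTop (show (0 : ℝ) < 1 / ((q : ℝ) * (q + 1)) by positivity)
    exact tendsto_atTop_mono h1 h3
  obtain ⟨T, hT⟩ := (hdiv.eventually (eventually_gt_atTop κ)).exists
  exact absurd (hbound T) (not_le.2 hT)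

end Pool.Agent.W_MP_b91de3_nt
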