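import Mathlib
import Pool.Agent.W_MP_b91de3_nt.Places
import Pool.Agent.W_MP_b91de3_nt.Count

set_option autoImplicit false

/-!
# Kronecker's theorem

If `x` is an element of a number field such that `x ^ p = x` in the residue field of almost all
primes `v`, then `x` is rational.
-/

namespace Pool.Agent.W_MP_b91de3_nt

open IsDedekindDomain NumberField Filter UniqueFactorizationMonoid

section Two

variable {F : Type*} [Field F] [NumberField F]

lemma exists_two_primes (hd : 2 ≤ Module.finrank ℚ F) (p : ℕ) (hp : p.Prime)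
    (hdisc : ¬ (p : ℤ) ∣ discr F)
    (hnorm : ∀ P : Ideal (𝓞 F), P.IsPrime → (p : 𝓞 F) ∈ P → Ideal.absNorm P = p) :
    ∃ P Q : Ideal (𝓞 F), P ≠ Q ∧ P.IsPrime ∧ Q.IsPrime ∧ Ideal.absNorm P = p ∧
      Ideal.absNorm Q = p := by
  classical
  by_contra hcon
  push Not at hcon
  have hp0 : (p : 𝓞 F) ≠ 0 := Nat.cast_ne_zero.2 hp.ne_zero
  have hspan0 : Ideal.span {(p : 𝓞 F)} ≠ ⊥ := by simpa using hp0
  obtain ⟨v, hv⟩ := exists_pr_eq (K := F) p hp
  have hpv : (p : 𝓞 F) ∈ v.asIdeal := by rw [natCast_mem_iff, hv]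
  have hvn := hnorm v.asIdeal v.isPrime hpv
  have huniq : ∀ Q : Ideal (𝓞 F), Q.IsPrime → (p : 𝓞 F) ∈ Q → Q = v.asIdeal := by
    intro Q hQ hpQ
    by_contra hne
    exact hcon Q v.asIdeal hne hQ v.isPrime (hnorm Q hQ hpQ) hvn
  have hfac : ∀ Q ∈ normalizedFactors (Ideal.span {(p : 𝓞 F)}), Q = v.asIdeal := by
    intro Q hQ
    have h1 := prime_of_normalized_factor Q hQ
    have h2 := dvd_of_mem_normalizedFactors hQ
    apply huniq Q (Ideal.isPrime_of_prime h1)
    exact (Ideal.dvd_span_singleton).1 h2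
  have hrep := Multiset.eq_replicate_card.2 hfac
  have hprod := associated_iff_eq.1 (prod_normalizedFactors (a := Ideal.span {(p : 𝓞 F)}) hspan0)
  rw [hrep, Multiset.prod_replicate] at hprod
  set e := Multiset.card (normalizedFactors (Ideal.span {(p : 𝓞 F)})) with he
  have hnorm2 := congrArg Ideal.absNorm hprod
  rw [map_pow, hvn, Ideal.absNorm_span_natCast] at hnorm2
  have hed : e = Module.finrank ℤ (𝓞 F) := Nat.pow_right_injective hp.two_le hnorm2
  rw [RingOfIntegers.rank] at hed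
  have hdvd : v.asIdeal ^ 2 ∣ Ideal.map (algebraMap ℤ (𝓞 F)) (Ideal.span {(p : ℤ)}) := by
    have : Ideal.map (algebraMap ℤ (𝓞 F)) (Ideal.span {(p : ℤ)}) = Ideal.span {(p : 𝓞 F)} := by
      rw [Ideal.map_span]; simp
    rw [this, ← hprod]
    exact pow_dvd_pow _ (by omega)
  have hpZ : Prime (p : ℤ) := Nat.prime_iff_prime_int.1 hp
  have hmax : (Ideal.span {(p : ℤ)}).IsMaximal :=
    ((Ideal.span_singleton_prime hpZ.ne_zero).2 hpZ).isMaximal (by simpa using hpZ.ne_zero)
  have h3 := pow_sub_one_dvd_differentIdeal ℤ (p := Ideal.span {(p : ℤ)}) v.asIdeal 2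
    (by simpa using hpZ.ne_zero) hdvd
  have h4 := Ideal.absNorm_dvd_absNorm_of_le (Ideal.le_of_dvd h3)
  rw [absNorm_differentIdeal F (𝓞 F)] at h4
  simp only [Nat.add_one_sub_one, pow_one] at h4
  rw [hvn] at h4
  exact hdisc (Int.natCast_dvd.2 h4)

end Two

variable {K : Type*} [Field K] [NumberField K]

/-- elements of `Sv v` whose reduction is fixed by Frobenius -/
noncomputable def Fx (v : HeightOneSpectrum (𝓞 K)) : Subring K :=
  (RingHom.eqLocus ((frobenius (kf v) (pr v)).comp (red v)) (red v)).map (Sv v).subtype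

lemma mem_Fx (v : HeightOneSpectrum (𝓞 K)) (y : K) :
    y ∈ Fx v ↔ ∃ hy : y ∈ Sv v, red v ⟨y, hy⟩ ^ pr v = red v ⟨y, hy⟩ := by
  constructor
  · rintro ⟨⟨z, hz⟩, h, rfl⟩
    exact ⟨hz, h⟩
  · rintro ⟨hy, h⟩
    exact ⟨⟨y, hy⟩, h, rfl⟩

lemma rat_mem_Fx (v : HeightOneSpectrum (𝓞 K)) (r : ℚ) (h : ¬ pr v ∣ r.den) :
    (r : K) ∈ Fx v := by
  have hS : (r : K) ∈ Sv v := (rat_mem_Sv_iff v r).2 h
  rw [mem_Fx]
  refine ⟨hS, ?_⟩
  have hr : (r : K) * (r.den : K) = (r.num : K) := by
    have h0 : ((r.den : ℕ) : K) ≠ 0 := Nat.cast_ne_zero.2 r.den_nz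
    rw [Rat.cast_def r]; field_simp
  have e : (⟨(r : K), hS⟩ : Sv v) * (r.den : Sv v) = (r.num : Sv v) := by
    apply Subtype.ext
    push_cast
    exact hr
  have e1 := congrArg (red v) e
  rw [map_mul, map_natCast, map_intCast] at e1
  have e2 := congrArg (frobenius (kf v) (pr v)) e1
  rw [map_mul, map_natCast, map_intCast, frobenius_def] at e2
  have hden : ((r.den : ℕ) : kf v) ≠ 0 := by
    rw [Ne, CharP.cast_eq_zero_iff (kf v) (pr v)]; exact h
  apply mul_right_cancel₀ hden
  rw [e2, e1]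

lemma eventually_rat_mem_Fx (r : ℚ) :
    ∀ᶠ v : HeightOneSpectrum (𝓞 K) in cofinite, (r : K) ∈ Fx v := by
  filter_upwards [eventually_pr_ge (K := K) (r.den + 1)] with v hv
  apply rat_mem_Fx
  intro hd
  have := Nat.le_of_dvd r.den_pos hd
  omega

/-- all elements of `ℚ[x]` are eventually in `Fx v` if `x` is -/
lemma eventually_adjoin_mem_Fx {x : K} (hx : ∀ᶠ v : HeightOneSpectrum (𝓞 K) in cofinite, x ∈ Fx v)
    {y : K} (hy : y ∈ Algebra.adjoin ℚ {x}) :
    ∀ᶠ v : HeightOneSpectrum (𝓞 K) in cofinite, y ∈ Fx v := by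
  induction hy using Algebra.adjoin_induction with
  | mem z hz =>
    rw [Set.mem_singleton_iff] at hz
    subst hz; exact hx
  | algebraMap r =>
    simpa using eventually_rat_mem_Fx (K := K) r
  | add a b _ _ ha hb =>
    filter_upwards [ha, hb] with v h1 h2 using (Fx v).add_mem h1 h2
  | mul a b _ _ ha hb =>
    filter_upwards [ha, hb] with v h1 h2 using (Fx v).mul_mem h1 h2

section FK

variable {F : Type*} [Field F] [NumberField F] [Algebra F K]

/-- a number field `F ⊆ K` all of whose integers are eventually fixed by Frobenius is `ℚ`. -/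
theorem finrank_eq_one_of_fixed
    (h : ∀ᶠ v : HeightOneSpectrum (𝓞 K) in cofinite, ∀ y : 𝓞 F, algebraMap F K (y : F) ∈ Fx v) :
    Module.finrank ℚ F = 1 := by
  classical
  by_contra hne
  have hd : 2 ≤ Module.finrank ℚ F := by
    have := Module.finrank_pos (R := ℚ) (M := F)
    omega
  -- finitely many bad places
  rw [Filter.eventually_cofinite] at h
  obtain ⟨P0, hP0⟩ : ∃ P0 : ℕ, ∀ v : HeightOneSpectrum (𝓞 K), P0 ≤ pr v →
      ∀ y : 𝓞 F, algebraMap F K (y : F) ∈ Fx v := by
    refine ⟨(h.toFinset.sup pr) + 1, ?_⟩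
    intro v hv
    by_contra hbad
    have : v ∈ h.toFinset := by
      rw [Set.Finite.mem_toFinset]
      exact hbad
    have := Finset.le_sup (f := pr) this
    omega
  -- all primes above a large p have norm p
  have hnorm : ∀ p : ℕ, p.Prime → P0 ≤ p → ∀ P : Ideal (𝓞 F), P.IsPrime → (p : 𝓞 F) ∈ P →
      Ideal.absNorm P = p := by
    intro p hp hpP P hP hpmem
    have hPbot : P ≠ ⊥ := by
      rintro rfl
      have : (p : 𝓞 F) = 0 := by simpa using hpmem
      exact hp.ne_zero (Nat.cast_eq_zero.1 this)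
    have hPmax : P.IsMaximal := hP.isMaximal hPbot
    obtain ⟨Q, hQmax, hQ⟩ := Ideal.exists_maximal_ideal_liesOver_of_isIntegral (S := 𝓞 K) P
    have hQcomap : P = Q.comap (algebraMap (𝓞 F) (𝓞 K)) := hQ.over
    have hQbot : Q ≠ ⊥ := by
      rintro rfl
      apply hPbot
      rw [hQcomap]
      rw [← RingHom.ker_eq_comap_bot]
      exact (RingHom.injective_iff_ker_eq_bot _).1 (FaithfulSMul.algebraMap_injective (𝓞 F) (𝓞 K))
    let v : HeightOneSpectrum (𝓞 K) := ⟨Q, hQmax.isPrime, hQbot⟩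
    have hprv : pr v = p := by
      have : (p : 𝓞 K) ∈ v.asIdeal := by
        have : (p : 𝓞 F) ∈ Q.comap (algebraMap (𝓞 F) (𝓞 K)) := hQcomap ▸ hpmem
        rw [Ideal.mem_comap, map_natCast] at this
        exact this
      rw [natCast_mem_iff] at this
      exact (Nat.prime_dvd_prime_iff_eq (Fact.out) hp).1 this
    let w : HeightOneSpectrum (𝓞 F) := ⟨P, hP, hPbot⟩
    have hprw : pr w = p := by
      have : (p : 𝓞 F) ∈ w.asIdeal := hpmem
      rw [natCast_mem_iff] at this
      exact (Nat.prime_dvd_prime_iff_eq (Fact.out) hp).1 this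
    have hfix : ∀ y : 𝓞 F, y ^ p - y ∈ P := by
      intro y
      have h1 := hP0 v (by rw [hprv]; exact hpP) y
      obtain ⟨hy, h2⟩ := (mem_Fx v _).1 h1
      have h3 : red v ⟨algebraMap F K (y : F), hy⟩ = qm v (algebraMap (𝓞 F) (𝓞 K) y) :=
        red_coe v (algebraMap (𝓞 F) (𝓞 K) y) hy
      rw [h3, hprv, ← map_pow, ← sub_eq_zero, ← map_sub, qm_eq_zero] at h2
      rw [hQcomap, Ideal.mem_comap, map_sub, map_pow]
      exact h2
    -- the residue field has p elements
    have hfix' : ∀ a : kf w, a ^ p = a := by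
      intro a
      obtain ⟨y, rfl⟩ := Ideal.Quotient.mk_surjective a
      have := hfix y
      have h4 : qm w (y ^ p - y) = 0 := (qm_eq_zero w _).2 this
      rw [map_sub, map_pow, sub_eq_zero] at h4
      exact h4
    have hcard_le : Nat.card (kf w) ≤ p := by
      have := Fintype.ofFinite (kf w)
      rw [Nat.card_eq_fintype_card, ← Finset.card_univ]
      have hpoly : (Polynomial.X ^ p - Polynomial.X : Polynomial (kf w)) ≠ 0 := by
        intro h0
        have := FiniteField.X_pow_card_sub_X_natDegree_eq (kf w) hp.one_lt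
        rw [h0] at this
        simp at this
        exact hp.ne_zero this.symm
      have h5 := Polynomial.card_le_degree_of_subset_roots
        (p := (Polynomial.X ^ p - Polynomial.X : Polynomial (kf w))) (Z := Finset.univ)
        (by
          intro a _
          rw [Polynomial.mem_roots hpoly]
          simp [Polynomial.IsRoot, hfix' a])
      rwa [FiniteField.X_pow_card_sub_X_natDegree_eq (kf w) hp.one_lt] at h5
    have hcard : Nat.card (kf w) = Ideal.absNorm P := by
      rw [Ideal.absNorm_apply, Submodule.cardQuot_apply]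
      rfl
    have hpdvd : p ∣ Ideal.absNorm P := by
      rw [← hcard]
      have := Fintype.ofFinite (kf w)
      obtain ⟨n, hpr, hn⟩ := FiniteField.card (kf w) (pr w)
      rw [Nat.card_eq_fintype_card, hn, hprw]
      exact dvd_pow_self p (by positivity)
    have hpos : 0 < Ideal.absNorm P := by
      rw [← hcard]; exact Nat.card_pos
    have := Nat.le_of_dvd hpos hpdvd
    rw [hcard] at hcard_le
    omega
  -- two primes
  set P1 := max P0 ((discr F).natAbs + 1) with hP1
  have htwo : ∀ p : ℕ, p.Prime → P1 ≤ p → ∃ P Q : Ideal (𝓞 F), P ≠ Q ∧ P.IsPrime ∧ Q.IsPrime ∧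
      Ideal.absNorm P = p ∧ Ideal.absNorm Q = p := by
    intro p hp hpP
    apply exists_two_primes hd p hp _ (hnorm p hp (le_trans (le_max_left _ _) hpP))
    intro hdvd
    have h1 : p ∣ (discr F).natAbs := Int.natCast_dvd.1 hdvd
    have h2 := Nat.le_of_dvd (Int.natAbs_pos.2 (discr_ne_zero F)) h1
    have h3 : (discr F).natAbs + 1 ≤ p := le_trans (le_max_right _ _) hpP
    omega
  choose! P Q hPQ using htwo
  exact no_two_primes (P := P) (Q := Q) (P0 := P1)
    (fun p hp hpP => ⟨(hPQ p hp hpP).2.1, (hPQ p hp hpP).2.2.2.1⟩)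
    (fun p hp hpP => ⟨(hPQ p hp hpP).2.2.1, (hPQ p hp hpP).2.2.2.2⟩)
    (fun p hp hpP => (hPQ p hp hpP).1)

end FK

/-- **Kronecker's theorem** -/
theorem kronecker {x : K} (hx : ∀ᶠ v : HeightOneSpectrum (𝓞 K) in cofinite, x ∈ Fx v) :
    ∃ q : ℚ, (q : K) = x := by
  classical
  have hfin : Module.finrank ℚ (IntermediateField.adjoin ℚ {x}) = 1 := by
    apply finrank_eq_one_of_fixed (K := K) (F := IntermediateField.adjoin ℚ {x})
    let b := Module.Free.chooseBasis ℤ (𝓞 (IntermediateField.adjoin ℚ {x}))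
    have hb : ∀ i, ∀ᶠ v : HeightOneSpectrum (𝓞 K) in cofinite,
        algebraMap (IntermediateField.adjoin ℚ {x}) K
          ((b i : 𝓞 (IntermediateField.adjoin ℚ {x})) : IntermediateField.adjoin ℚ {x}) ∈ Fx v := by
      intro i
      apply eventually_adjoin_mem_Fx hx
      have h1 := IntermediateField.adjoin_simple_toSubalgebra_of_isAlgebraic
        (IsAlgebraic.of_finite ℚ x)
      rw [← h1]
      exact ((b i : 𝓞 (IntermediateField.adjoin ℚ {x})) : IntermediateField.adjoin ℚ {x}).2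
    filter_upwards [Filter.eventually_all.2 hb] with v hv y
    rw [← b.sum_repr y]
    have : ((algebraMap (IntermediateField.adjoin ℚ {x}) K).comp
        (algebraMap (𝓞 (IntermediateField.adjoin ℚ {x})) (IntermediateField.adjoin ℚ {x})))
          (∑ i, (b.repr y) i • b i) ∈ Fx v := by
      rw [map_sum]
      apply Subring.sum_mem
      intro i _
      rw [zsmul_eq_mul, map_mul, map_intCast]
      exact (Fx v).mul_mem (intCast_mem _ _) (hv i)
    exact this
  rw [IntermediateField.finrank_adjoin_simple_eq_one_iff, IntermediateField.mem_bot] at hfin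
  obtain ⟨q, hq⟩ := hfin
  exact ⟨q, by simpa using hq⟩

end Pool.Agent.W_MP_b91de3_nt
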