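import Mathlib
import Pool.Agent.W_MP_b91de3_nt.Sli
import Pool.Agent.W_MP_b91de3_nt.Kronecker

set_option autoImplicit false

/-!
# Linear relations between logarithmic derivatives of superlinearly integral series
-/

namespace Pool.Agent.W_MP_b91de3_nt

open IsDedekindDomain NumberField Filter PowerSeries

variable {K : Type*} [Field K] [NumberField K]

lemma swap1 {k κ τ : Type*} [CommRing k] [Fintype κ] [Fintype τ] (b : τ → k) (c : κ → k)
    (w : τ → κ → k) : ∑ n, b n * ∑ j, c j * w n j = ∑ j, c j * ∑ n, b n * w n j := by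
  simp only [Finset.mul_sum]
  rw [Finset.sum_comm]
  apply Finset.sum_congr rfl
  intro j _
  apply Finset.sum_congr rfl
  intro n _
  ring

lemma swap2 {k κ τ : Type*} [CommRing k] [Fintype κ] [Fintype τ] (r : τ → k) (c : τ → κ → k)
    (w : κ → k) : ∑ i, (∑ j, r j * c j i) * w i = ∑ j, r j * ∑ i, c j i * w i := by
  simp only [Finset.mul_sum, Finset.sum_mul]
  rw [Finset.sum_comm]
  apply Finset.sum_congr rfl
  intro j _
  apply Finset.sum_congr rfl
  intro n _
  ring

/-- inverse of Frobenius on the residue field -/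
noncomputable def rho (v : HeightOneSpectrum (𝓞 K)) : kf v ≃+* kf v :=
  (frobeniusEquiv (kf v) (pr v)).symm

lemma rho_pow (v : HeightOneSpectrum (𝓞 K)) (b : kf v) : rho v (b ^ pr v) = b := by
  have : b ^ pr v = frobeniusEquiv (kf v) (pr v) b := rfl
  rw [rho, this, RingEquiv.symm_apply_apply]

lemma pow_rho (v : HeightOneSpectrum (𝓞 K)) (b : kf v) : rho v b ^ pr v = b := by
  have : rho v b ^ pr v = frobeniusEquiv (kf v) (pr v) (rho v b) := rfl
  rw [this, rho, RingEquiv.apply_symm_apply]

/-- the relation modulo `v` obtained by applying the Cartier operator -/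
theorem star {ι : Type*} [Fintype ι] (lam : ι → K) (u w : ι → K⟦X⟧) (hu : ∀ i, u i ∈ sli K)
    (hu0 : ∀ i, u i ≠ 0) (hw : ∀ i, w i * u i = eul (u i)) (h : K⟦X⟧) (hh : h ∈ sli K)
    (hrel : ∑ i, C (lam i) * w i + eul h = 0) (M : ℕ) :
    ∀ᶠ v : HeightOneSpectrum (𝓞 K) in cofinite, (∀ i, lam i ∈ Sv v) ∧
      (∀ i, ∀ n ≤ M, coeff n (w i) ∈ Sv v) ∧
      ∀ n ≤ M, ∑ i, rho v (rd v (lam i)) * rd v (coeff n (w i)) = 0 := by
  have h1 : ∀ᶠ v : HeightOneSpectrum (𝓞 K) in cofinite, ∀ i, lam i ∈ Sv v :=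
    eventually_all.2 fun i => eventually_mem_Sv (lam i)
  have h2 : ∀ᶠ v : HeightOneSpectrum (𝓞 K) in cofinite, ∀ i, Tn (Sv v) (M * pr v) (w i) ∧
      ∀ n ≤ M, rd v (coeff (pr v * n) (w i)) = rd v (coeff n (w i)) ^ pr v :=
    eventually_all.2 fun i => cartier_sli (hw i) (hu i) (hu0 i) M
  filter_upwards [h1, h2, hh M] with v hl hc hhv
  have hp := (Fact.out : (pr v).Prime).pos
  refine ⟨hl, fun i n hn => (hc i).1 n (le_trans hn (Nat.le_mul_of_pos_right _ hp)), ?_⟩
  intro n hn
  have hn1 : pr v * n ≤ M * pr v := by rw [mul_comm]; exact Nat.mul_le_mul_right _ hn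
  have e := congrArg (coeff (pr v * n)) hrel
  rw [map_add, map_sum, map_zero, coeff_eul] at e
  simp only [coeff_C_mul] at e
  have e2 := congrArg (rd v) e
  have hmem : ∀ i ∈ Finset.univ, lam i * coeff (pr v * n) (w i) ∈ Sv v :=
    fun i _ => (Sv v).mul_mem (hl i) ((hc i).1 _ hn1)
  rw [rd_add ((Sv v).sum_mem hmem) ((Sv v).mul_mem (natCast_mem _ _) (hhv _ hn1)), rd_sum _ _ hmem,
    rd_mul (natCast_mem _ _) (hhv _ hn1), rd_natCast, rd_zero] at e2
  have h0 : (((pr v * n : ℕ)) : kf v) = 0 := by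
    rw [CharP.cast_eq_zero_iff (kf v) (pr v)]; exact dvd_mul_right _ _
  rw [h0, zero_mul, add_zero] at e2
  have e3 := congrArg (rho v) e2
  rw [map_sum, map_zero] at e3
  rw [← e3]
  apply Finset.sum_congr rfl
  intro i _
  rw [rd_mul (hl i) ((hc i).1 _ hn1), (hc i).2 n hn, map_mul, rho_pow]

omit [NumberField K] in
/-- a linearly independent finite family of power series is detected by finitely many
coefficients -/
lemma exists_dual {κ : Type*} [Fintype κ] [DecidableEq κ] (w : κ → K⟦X⟧) (hw : LinearIndependent K w) :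
    ∃ (M : ℕ) (b : κ → Fin (M + 1) → K), ∀ i j, ∑ n : Fin (M + 1), b i n * coeff (n : ℕ) (w j) =
      if i = j then 1 else 0 := by
  classical
  -- the truncation maps
  let L : ℕ → (κ → K) →ₗ[K] (ℕ → K) := fun M =>
    { toFun := fun c n => if n ≤ M then ∑ j, c j * coeff n (w j) else 0
      map_add' := fun c d => by
        funext n
        by_cases hn : n ≤ M
        · simp [hn, add_mul, Finset.sum_add_distrib]
        · simp [hn]
      map_smul' := fun r c => by
        funext n
        by_cases hn : n ≤ M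
        · simp [hn, Finset.mul_sum, mul_assoc]
        · simp [hn] }
  let f : ℕ →o (Submodule K (κ → K))ᵒᵈ :=
    ⟨fun M => OrderDual.toDual (LinearMap.ker (L M)), by
      intro M N hMN
      change LinearMap.ker (L N) ≤ LinearMap.ker (L M)
      intro c hc
      rw [LinearMap.mem_ker] at hc ⊢
      funext n
      by_cases hn : n ≤ M
      · have := congrFun hc n
        simp only [L, LinearMap.coe_mk, AddHom.coe_mk, Pi.zero_apply] at this ⊢
        rw [if_pos hn]; rwa [if_pos (le_trans hn hMN)] at this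
      · simp only [L, LinearMap.coe_mk, AddHom.coe_mk, Pi.zero_apply]
        rw [if_neg hn]⟩
  obtain ⟨M, hM⟩ := IsArtinian.monotone_stabilizes f
  have hker : LinearMap.ker (L M) = ⊥ := by
    rw [eq_bot_iff]
    intro c hc
    have hall : ∀ n, ∑ j, c j * coeff n (w j) = 0 := by
      intro n
      have h1 : LinearMap.ker (L M) = LinearMap.ker (L (max M n)) := hM (max M n) (le_max_left _ _)
      have h2 : c ∈ LinearMap.ker (L (max M n)) := h1 ▸ hc
      have h3 := congrFun (LinearMap.mem_ker.1 h2) n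
      simp only [L, LinearMap.coe_mk, AddHom.coe_mk, Pi.zero_apply] at h3
      rwa [if_pos (le_max_right _ _)] at h3
    have h4 : ∑ j, c j • w j = 0 := by
      ext n
      rw [map_sum]
      simpa [smul_eq_mul] using hall n
    have h5 := Fintype.linearIndependent_iff.1 hw c h4
    rw [Submodule.mem_bot]
    funext j; exact h5 j
  let L' : (κ → K) →ₗ[K] (Fin (M + 1) → K) :=
    { toFun := fun c n => ∑ j, c j * coeff (n : ℕ) (w j)
      map_add' := fun c d => by
        funext n
        simp [add_mul, Finset.sum_add_distrib]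
      map_smul' := fun r c => by
        funext n
        simp [Finset.mul_sum, mul_assoc] }
  have hker' : LinearMap.ker L' = ⊥ := by
    rw [eq_bot_iff, ← hker]
    intro c hc
    rw [LinearMap.mem_ker] at hc ⊢
    funext n
    by_cases hn : n ≤ M
    · have := congrFun hc ⟨n, by omega⟩
      simp only [L, L', LinearMap.coe_mk, AddHom.coe_mk, Pi.zero_apply] at this ⊢
      rw [if_pos hn]; exact this
    · simp only [L, LinearMap.coe_mk, AddHom.coe_mk, Pi.zero_apply]
      rw [if_neg hn]
  obtain ⟨g, hg⟩ := LinearMap.exists_leftInverse_of_injective L' hker'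
  refine ⟨M, fun i n => g (Pi.single n 1) i, ?_⟩
  intro i j
  have h6 : g (L' (Pi.single j 1)) = Pi.single j 1 := by
    have := LinearMap.congr_fun hg (Pi.single j 1)
    simpa using this
  have h7 : L' (Pi.single j 1) = ∑ n : Fin (M + 1), coeff (n : ℕ) (w j) • (Pi.single n (1 : K)) := by
    funext m
    simp only [L', LinearMap.coe_mk, AddHom.coe_mk]
    rw [Finset.sum_eq_single j]
    · simp [Finset.sum_apply, Pi.single_apply]
    · intro k _ hk; simp [hk]
    · simp
  rw [h7, map_sum] at h6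
  have h8 := congrFun h6 i
  rw [Finset.sum_apply] at h8
  simp only [map_smul, Pi.smul_apply, smul_eq_mul] at h8
  rw [Pi.single_apply] at h8
  rw [← h8]
  apply Finset.sum_congr rfl
  intro n _
  ring

/-- independence persists modulo almost all `v` -/
lemma indep_mod {κ : Type*} [Fintype κ] (w : κ → K⟦X⟧) (hw : LinearIndependent K w) :
    ∃ M : ℕ, ∀ᶠ v : HeightOneSpectrum (𝓞 K) in cofinite, (∀ j, ∀ n ≤ M, coeff n (w j) ∈ Sv v) →
      ∀ c : κ → kf v, (∀ n ≤ M, ∑ j, c j * rd v (coeff n (w j)) = 0) → ∀ j, c j = 0 := by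
  classical
  obtain ⟨M, b, hb⟩ := exists_dual w hw
  refine ⟨M, ?_⟩
  have h1 : ∀ᶠ v : HeightOneSpectrum (𝓞 K) in cofinite, ∀ i n, b i n ∈ Sv v :=
    eventually_all.2 fun i => eventually_all.2 fun n => eventually_mem_Sv (b i n)
  filter_upwards [h1] with v hv hw' c hc i
  have h2 : ∀ j, ∑ n : Fin (M + 1), rd v (b i n) * rd v (coeff (n : ℕ) (w j)) =
      if i = j then 1 else 0 := by
    intro j
    have h3 := congrArg (rd v) (hb i j)
    rw [rd_sum _ _ (fun n _ => (Sv v).mul_mem (hv i n) (hw' j n (by omega)))] at h3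
    have h4 : rd v (if i = j then (1 : K) else 0) = if i = j then 1 else 0 := by
      split_ifs
      · exact rd_one
      · exact rd_zero
    rw [h4] at h3
    rw [← h3]
    apply Finset.sum_congr rfl
    intro n _
    rw [rd_mul (hv i n) (hw' j n (by omega))]
  have h5 : ∑ n : Fin (M + 1), rd v (b i n) * ∑ j, c j * rd v (coeff (n : ℕ) (w j)) = 0 := by
    apply Finset.sum_eq_zero
    intro n _
    rw [hc n (by omega), mul_zero]
  have h6 : ∑ n : Fin (M + 1), rd v (b i n) * ∑ j, c j * rd v (coeff (n : ℕ) (w j)) =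
      ∑ j, c j * ∑ n : Fin (M + 1), rd v (b i n) * rd v (coeff (n : ℕ) (w j)) := by
    exact swap1 _ _ _
  rw [h6] at h5
  have h7 : ∑ j, c j * ∑ n : Fin (M + 1), rd v (b i n) * rd v (coeff (n : ℕ) (w j)) = c i := by
    rw [Finset.sum_eq_single i]
    · rw [h2, if_pos rfl, mul_one]
    · intro j _ hj
      rw [h2, if_neg (Ne.symm hj), mul_zero]
    · intro h; exact absurd (Finset.mem_univ i) h
  rw [← h7, h5]

lemma rat_coeff {m : ℕ} (wj uj : K⟦X⟧) (wa ua : Fin m → K⟦X⟧) (hu : uj ∈ sli K)
    (hua : ∀ k, ua k ∈ sli K) (hu0 : uj ≠ 0) (hua0 : ∀ k, ua k ≠ 0) (hw : wj * uj = eul uj)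
    (hwa : ∀ k, wa k * ua k = eul (ua k)) (hli : LinearIndependent K wa) (c : Fin m → K)
    (hc : wj = ∑ k, C (c k) * wa k) (k : Fin m) : ∃ q : ℚ, (q : K) = c k := by
  classical
  obtain ⟨M, hM⟩ := indep_mod _ hli
  -- relation indexed by Option
  have hrel : ∑ i : Option (Fin m), C (i.elim (1 : K) (fun k => - c k)) * i.elim wj wa
      + eul (0 : K⟦X⟧) = 0 := by
    rw [Fintype.sum_option]
    have h1 : ∑ k, C ((some k : Option (Fin m)).elim (1 : K) (fun k => - c k)) *
        (some k : Option (Fin m)).elim wj wa = - wj := by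
      rw [hc, ← Finset.sum_neg_distrib]
      apply Finset.sum_congr rfl
      intro k _
      simp only [Option.elim_some, map_neg, neg_mul]
    rw [h1]
    have : eul (0 : K⟦X⟧) = 0 := by simp [eul]
    rw [this]
    simp only [Option.elim_none, map_one, one_mul, add_neg_cancel, add_zero]
  have hst := star (ι := Option (Fin m)) (fun i => i.elim (1 : K) (fun k => - c k))
    (fun i => i.elim uj ua) (fun i => i.elim wj wa)
    (by rintro (_ | k); exacts [hu, hua k])
    (by rintro (_ | k); exacts [hu0, hua0 k])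
    (by rintro (_ | k); exacts [hw, hwa k]) 0 (Subring.zero_mem _) hrel M
  have hcS : ∀ᶠ v : HeightOneSpectrum (𝓞 K) in cofinite, ∀ k, c k ∈ Sv v :=
    eventually_all.2 fun k => eventually_mem_Sv (c k)
  apply kronecker
  filter_upwards [hst, hM, hcS] with v h1 h2 h3
  obtain ⟨-, h5, h6⟩ := h1
  have h5j : ∀ n ≤ M, coeff n wj ∈ Sv v := fun n hn => h5 none n hn
  have h5k : ∀ k, ∀ n ≤ M, coeff n (wa k) ∈ Sv v := fun k n hn => h5 (some k) n hn
  have h7 : ∀ k, rd v (c k) - rho v (rd v (c k)) = 0 := by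
    apply h2 h5k (fun k => rd v (c k) - rho v (rd v (c k)))
    intro n hn
    have h8 := h6 n hn
    rw [Fintype.sum_option] at h8
    simp only [Option.elim_none, Option.elim_some, rd_one, map_one, one_mul] at h8
    have h9 : rd v (coeff n wj) = ∑ k, rd v (c k) * rd v (coeff n (wa k)) := by
      conv_lhs => rw [hc, map_sum]
      simp only [coeff_C_mul]
      rw [rd_sum _ _ (fun k _ => (Sv v).mul_mem (h3 k) (h5k k n hn))]
      apply Finset.sum_congr rfl
      intro k _
      rw [rd_mul (h3 k) (h5k k n hn)]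
    have h10 : ∀ k, rho v (rd v (-c k)) = - rho v (rd v (c k)) := by
      intro k
      rw [rd_neg (h3 k), map_neg]
    simp only [h10] at h8
    rw [h9, ← Finset.sum_add_distrib] at h8
    rw [← h8]
    apply Finset.sum_congr rfl
    intro k _
    ring
  have h11 := h7 k
  rw [sub_eq_zero] at h11
  rw [mem_Fx]
  refine ⟨h3 k, ?_⟩
  rw [← rd_of_mem]
  conv_lhs => rw [h11]
  rw [pow_rho]

/-- **Rationality of the relations.** There is a subfamily `w ∘ a` such that every `w j` is a
rational linear combination of it, and every relation `∑ lam j * w j + eul h = 0` is a consequence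
of these. -/
theorem rational_relations {ι : Type*} [Fintype ι] (u w : ι → K⟦X⟧) (hu : ∀ i, u i ∈ sli K)
    (hu0 : ∀ i, u i ≠ 0) (hw : ∀ i, w i * u i = eul (u i)) :
    ∃ (κ : Type) (_ : Fintype κ) (a : κ → ι) (c : ι → κ → ℚ),
      (∀ j, w j = ∑ k, C ((c j k : ℚ) : K) * w (a k)) ∧
      ∀ (lam : ι → K) (h : K⟦X⟧), h ∈ sli K → ∑ i, C (lam i) * w i + eul h = 0 →
        ∀ k, ∑ j, lam j * ((c j k : ℚ) : K) = 0 := by
  classical
  obtain ⟨κ0, a0, ha0, hspan, hli⟩ := exists_linearIndependent' K w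
  have hfin : Finite κ0 := Finite.of_injective a0 ha0
  -- move to `Fin m`
  obtain ⟨m, ⟨e⟩⟩ := Finite.exists_equiv_fin κ0
  let a : Fin m → ι := fun k => a0 (e.symm k)
  have hli' : LinearIndependent K (fun k => w (a k)) := hli.comp _ e.symm.injective
  have hexp : ∀ j, ∃ c : Fin m → K, w j = ∑ k, C (c k) * w (a k) := by
    intro j
    have h1 : w j ∈ Submodule.span K (Set.range (w ∘ a0)) := by
      rw [hspan]; exact Submodule.subset_span ⟨j, rfl⟩
    have h2 : Set.range (w ∘ a0) = Set.range (fun k => w (a k)) := by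
      ext x
      constructor
      · rintro ⟨k, rfl⟩
        exact ⟨e k, by simp [a]⟩
      · rintro ⟨k, rfl⟩
        exact ⟨e.symm k, rfl⟩
    rw [h2] at h1
    obtain ⟨c, hc⟩ := (Submodule.mem_span_range_iff_exists_fun K).1 h1
    refine ⟨c, ?_⟩
    rw [← hc]
    apply Finset.sum_congr rfl
    intro k _
    rw [smul_eq_C_mul]
  choose c hc using hexp
  obtain ⟨M, hM⟩ := indep_mod _ hli'
  -- rationality
  have hrat : ∀ j k, ∃ q : ℚ, (q : K) = c j k := fun j k =>
    rat_coeff (w j) (u j) (fun k => w (a k)) (fun k => u (a k)) (hu j) (fun k => hu (a k)) (hu0 j)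
      (fun k => hu0 (a k)) (hw j) (fun k => hw (a k)) hli' (c j) (hc j) k
  choose q hq using hrat
  refine ⟨Fin m, inferInstance, a, q, ?_, ?_⟩
  · intro j
    simp only [hq]
    exact hc j
  · intro lam h hh hrel k
    simp only [hq]
    apply eq_zero_of_frequently
    have hst := star lam u w hu hu0 hw h hh hrel M
    have hcS : ∀ᶠ v : HeightOneSpectrum (𝓞 K) in cofinite, ∀ j k, c j k ∈ Fx v := by
      refine eventually_all.2 fun j => eventually_all.2 fun k => ?_
      rw [← hq]
      exact eventually_rat_mem_Fx (K := K) (q j k)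
    filter_upwards [hst, hM, hcS] with v h1 h2 h3
    obtain ⟨h4, h5, h6⟩ := h1
    have hcv : ∀ j k, c j k ∈ Sv v := fun j k => ((mem_Fx v _).1 (h3 j k)).1
    have hcF : ∀ j k, rd v (c j k) ^ pr v = rd v (c j k) := by
      intro j k
      obtain ⟨h7, h8⟩ := (mem_Fx v _).1 (h3 j k)
      rw [rd_of_mem h7]; exact h8
    have h5k : ∀ k, ∀ n ≤ M, coeff n (w (a k)) ∈ Sv v := fun k n hn => h5 (a k) n hn
    have h9 : ∀ k, ∑ j, rho v (rd v (lam j)) * rd v (c j k) = 0 := by
      apply h2 h5k (fun k => ∑ j, rho v (rd v (lam j)) * rd v (c j k))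
      intro n hn
      rw [← h6 n hn]
      refine (swap2 _ _ _).trans ?_
      apply Finset.sum_congr rfl
      intro j _
      congr 1
      have h10 : rd v (coeff n (w j)) = ∑ k, rd v (c j k) * rd v (coeff n (w (a k))) := by
        conv_lhs => rw [hc j, map_sum]
        simp only [coeff_C_mul]
        rw [rd_sum _ _ (fun k _ => (Sv v).mul_mem (hcv j k) (h5k k n hn))]
        apply Finset.sum_congr rfl
        intro k _
        rw [rd_mul (hcv j k) (h5k k n hn)]
      rw [h10]
    have h11 := congrArg (fun x => frobenius (kf v) (pr v) x) (h9 k)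
    simp only [map_sum, map_mul, map_zero, frobenius_def, pow_rho, hcF] at h11
    rw [rd_sum _ _ (fun j _ => (Sv v).mul_mem (h4 j) (hcv j k)), ← h11]
    apply Finset.sum_congr rfl
    intro j _
    rw [rd_mul (h4 j) (hcv j k)]

end Pool.Agent.W_MP_b91de3_nt
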