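import Mathlib
import Pool.Agent.W_MP_b91de3_nt.Dlog
import Pool.Agent.W_MP_b91de3_nt.Relations

set_option autoImplicit false

/-!
# Closed logarithmic forms with polynomial data
-/

namespace Pool.Agent.W_MP_b91de3_nt

open IsDedekindDomain NumberField Filter PowerSeries

/-- The chain rule for a derivation composed with the evaluation of a polynomial. -/
lemma chain_rule {σ K B : Type*} [Fintype σ] [CommRing K] [CommRing B] [Algebra K B]
    (D : Derivation K B B) (x : σ → B) (P : MvPolynomial σ K) :
    D (MvPolynomial.aeval x P) = ∑ i, MvPolynomial.aeval x (MvPolynomial.pderiv i P) * D (x i) := by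
  classical
  induction P using MvPolynomial.induction_on with
  | C a => simp
  | add p q hp hq => simp only [map_add, hp, hq, add_mul, Finset.sum_add_distrib]
  | mul_X p i hp =>
    rw [map_mul, Derivation.leibniz, hp, MvPolynomial.aeval_X, smul_eq_mul, smul_eq_mul,
      Finset.mul_sum]
    have h1 : ∀ j, MvPolynomial.aeval x (MvPolynomial.pderiv j (p * MvPolynomial.X i)) * D (x j) =
        x i * (MvPolynomial.aeval x (MvPolynomial.pderiv j p) * D (x j)) +
          (if i = j then MvPolynomial.aeval x p * D (x i) else 0) := by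
      intro j
      rw [MvPolynomial.pderiv_mul, map_add, map_mul, map_mul, MvPolynomial.aeval_X,
        MvPolynomial.pderiv_X]
      by_cases hij : i = j
      · subst hij
        simp; ring
      · rw [if_neg hij, Pi.single_apply, if_neg hij]
        simp; ring
    simp only [h1, Finset.sum_add_distrib, Finset.sum_ite_eq, Finset.mem_univ, if_true]
    ring

/-- The data of a closed logarithmic differential form
`∑ k, lam k * dF k / F k + d (G / H)` in the variables `σ`, with constants `lam k` in `K` and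
polynomials `F k`, `G`, `H`. -/
structure LogForm (σ : Type*) (K : Type*) [Field K] where
  /-- number of logarithmic terms -/
  r : ℕ
  /-- the constants -/
  lam : Fin r → K
  /-- arguments of the logarithms -/
  F : Fin r → MvPolynomial σ K
  /-- numerator of the exact part -/
  G : MvPolynomial σ K
  /-- denominator of the exact part -/
  H : MvPolynomial σ K

namespace LogForm

variable {σ K : Type*} [Field K]

/-- The `i`-th component of the form multiplied by `H ^ 2 * ∏ k, F k`:
`(∑ k, lam k * ∂F k/∂x_i * ∏_{l ≠ k} F l) * H² + (∂G/∂x_i * H - G * ∂H/∂x_i) * ∏ l, F l`. -/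
noncomputable def num (ω : LogForm σ K) (i : σ) : MvPolynomial σ K :=
  (∑ k, MvPolynomial.C (ω.lam k) * MvPolynomial.pderiv i (ω.F k) *
      ∏ l ∈ Finset.univ.erase k, ω.F l) * ω.H ^ 2 +
    (MvPolynomial.pderiv i ω.G * ω.H - ω.G * MvPolynomial.pderiv i ω.H) * ∏ l, ω.F l

lemma aeval_num_sum [Fintype σ] {B : Type*} [CommRing B] [Algebra K B] (ω : LogForm σ K)
    (D : Derivation K B B) (x : σ → B) :
    ∑ i, MvPolynomial.aeval x (ω.num i) * D (x i) =
      (∑ k, algebraMap K B (ω.lam k) * D (MvPolynomial.aeval x (ω.F k)) *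
        ∏ l ∈ Finset.univ.erase k, MvPolynomial.aeval x (ω.F l)) *
          (MvPolynomial.aeval x ω.H) ^ 2 +
      (D (MvPolynomial.aeval x ω.G) * MvPolynomial.aeval x ω.H -
        MvPolynomial.aeval x ω.G * D (MvPolynomial.aeval x ω.H)) *
          ∏ l, MvPolynomial.aeval x (ω.F l) := by
  simp only [chain_rule D x]
  simp only [num, map_add, map_mul, map_sum, map_sub, map_pow, map_prod, MvPolynomial.aeval_C,
    Finset.mul_sum, Finset.sum_mul, add_mul, sub_mul, Finset.sum_add_distrib,
    Finset.sum_sub_distrib]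
  congr 1
  · rw [Finset.sum_comm]
    apply Finset.sum_congr rfl
    intro k _
    apply Finset.sum_congr rfl
    intro i _
    ring
  · congr 1
    · apply Finset.sum_congr rfl
      intro i _
      ring
    · apply Finset.sum_congr rfl
      intro i _
      ring

end LogForm

/-- In a field, the cleared and the uncleared form of the relation are equivalent. -/
lemma cleared_iff {r : ℕ} {E : Type*} [Field E] (l DU U : Fin r → E) (hU : ∀ i, U i ≠ 0)
    (A B DA DB : E) (hB : B ≠ 0) :
    (∑ k, l k * DU k * ∏ i ∈ Finset.univ.erase k, U i) * B ^ 2 + (DA * B - A * DB) * ∏ i, U i =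
      ((∑ k, l k * (DU k / U k)) + (DA * B - A * DB) / B ^ 2) * (B ^ 2 * ∏ i, U i) := by
  classical
  have h1 : ∀ k, l k * DU k * ∏ i ∈ Finset.univ.erase k, U i =
      l k * (DU k / U k) * ∏ i, U i := by
    intro k
    rw [← Finset.mul_prod_erase _ _ (Finset.mem_univ k)]
    have := hU k
    field_simp
  simp only [h1]
  rw [← Finset.sum_mul]
  field_simp

/-- In the ring of power series, existence of the logarithmic derivative. -/
lemma exists_logDer {k : Type*} [Field k] (u : k⟦X⟧) (hu : u ≠ 0) :
    ∃ w : k⟦X⟧, w * u = eul u := by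
  obtain ⟨e, u1, rfl, h0⟩ := exists_X_pow_mul hu
  refine ⟨C (e : k) + eul u1 * u1⁻¹, ?_⟩
  have h1 : u1⁻¹ * u1 = 1 := PowerSeries.inv_mul_cancel _ (by
    rw [← coeff_zero_eq_constantCoeff_apply]; exact h0)
  rw [eul_mul, eul_X_pow]
  have hC : (C (e : k) : k⟦X⟧) = (e : k⟦X⟧) := by simp
  rw [hC]
  calc ((e : k⟦X⟧) + eul u1 * u1⁻¹) * (X ^ e * u1)
      = (e : k⟦X⟧) * (X ^ e * u1) + eul u1 * (u1⁻¹ * u1) * X ^ e := by ring
    _ = X ^ e * eul u1 + u1 * ((e : k⟦X⟧) * X ^ e) := by rw [h1]; ring

/-- The exact part is a power series. -/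
lemma exact_part {k : Type*} [Field k] [CharZero k] (W a b : k⟦X⟧) (hb : b ≠ 0)
    (h : W * b ^ 2 + (eul a * b - a * eul b) = 0) :
    ∃ h : k⟦X⟧, a = h * b ∧ W + eul h = 0 := by
  have key : ∀ c : k⟦X⟧, a = c * b → W + eul c = 0 := by
    intro c hc
    rw [hc, eul_mul] at h
    have h2 : b ^ 2 * (W + eul c) = 0 := by linear_combination h
    rcases mul_eq_zero.1 h2 with h3 | h3
    · exact absurd (pow_eq_zero_iff (two_ne_zero) |>.1 h3) hb
    · exact h3
  rcases ValuationRing.dvd_total b a with hd | hd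
  · obtain ⟨c, hc⟩ := hd
    have hc' : a = c * b := by rw [hc]; ring
    exact ⟨c, hc', key c hc'⟩
  · obtain ⟨T, rfl⟩ := hd
    have ha0 : a ≠ 0 := left_ne_zero_of_mul hb
    have hT0 : T ≠ 0 := right_ne_zero_of_mul hb
    have h2 : a ^ 2 * (W * T ^ 2 - eul T) = 0 := by
      rw [eul_mul] at h
      linear_combination h
    have h3 : eul T = W * T ^ 2 := by
      rcases mul_eq_zero.1 h2 with h3 | h3
      · exact absurd (pow_eq_zero_iff (two_ne_zero) |>.1 h3) ha0
      · rw [sub_eq_zero] at h3; exact h3.symm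
    obtain ⟨m, T1, hT, hT1⟩ := exists_X_pow_mul hT0
    rcases Nat.eq_zero_or_pos m with hm | hm
    · -- `T` is a unit
      rw [hm, pow_zero, one_mul] at hT
      have h4 : T⁻¹ * T = 1 := PowerSeries.inv_mul_cancel _ (by
        rw [← coeff_zero_eq_constantCoeff_apply, hT]; exact hT1)
      have hc' : a = T⁻¹ * (a * T) := by
        calc a = a * (T⁻¹ * T) := by rw [h4, mul_one]
          _ = T⁻¹ * (a * T) := by ring
      exact ⟨T⁻¹, hc', key _ hc'⟩
    · exfalso
      have h5 := congrArg (coeff m) h3
      rw [coeff_eul, hT] at h5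
      have h6 : coeff m ((X : k⟦X⟧) ^ m * T1) = coeff 0 T1 := by
        have := coeff_X_pow_mul T1 m 0
        simpa using this
      rw [h6] at h5
      have h7 : W * (X ^ m * T1) ^ 2 = X ^ (m + 1) * (W * X ^ (m - 1) * T1 ^ 2) := by
        obtain ⟨q, rfl⟩ : ∃ q, m = q + 1 := ⟨m - 1, by omega⟩
        simp only [Nat.add_sub_cancel]
        ring
      have h8 : coeff m ((X : k⟦X⟧) ^ (m + 1) * (W * X ^ (m - 1) * T1 ^ 2)) = 0 := by
        rw [coeff_X_pow_mul']
        rw [if_neg (by omega)]
      rw [h7, h8] at h5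
      rcases mul_eq_zero.1 h5 with h9 | h9
      · exact absurd (Nat.cast_eq_zero.1 h9) hm.ne'
      · exact hT1 h9

variable {K : Type*} [Field K] [NumberField K]

/-- Division in `sli`. -/
lemma of_mul_mem_sli' {h b : K⟦X⟧} (hb : b ∈ sli K) (hb0 : b ≠ 0) (ha : h * b ∈ sli K) :
    h ∈ sli K := by
  obtain ⟨e, b1, rfl, h0⟩ := exists_X_pow_mul hb0
  have hb1 : b1 ∈ sli K := of_X_pow_mul_mem_sli hb
  have h1 : X ^ e * (h * b1) ∈ sli K := by
    have : X ^ e * (h * b1) = h * (X ^ e * b1) := by ring
    rw [this]; exact ha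
  exact of_mul_mem_sli hb1 h0 (of_X_pow_mul_mem_sli h1)

/-- **Main relation theorem**: a logarithmic relation between superlinearly integral series
holds for every derivation. -/
theorem single_form {r : ℕ} (lam : Fin r → K) (u : Fin r → K⟦X⟧) (hu : ∀ i, u i ∈ sli K)
    (hu0 : ∀ i, u i ≠ 0) (a b : K⟦X⟧) (ha : a ∈ sli K) (hb : b ∈ sli K) (hb0 : b ≠ 0)
    (hrel : (∑ k, algebraMap K K⟦X⟧ (lam k) * derivative K (u k) *
        ∏ l ∈ Finset.univ.erase k, u l) * b ^ 2 +
      (derivative K a * b - a * derivative K b) * ∏ l, u l = 0)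
    {E : Type*} [Field E] [Algebra K E] (e : E →+* LaurentSeries K)
    (he : ∀ c : K, e (algebraMap K E c) = HahnSeries.ofPowerSeries ℤ K (C c))
    (D : Derivation K E E)
    (U : Fin r → E) (A B : E) (hU : ∀ i, e (U i) = HahnSeries.ofPowerSeries ℤ K (u i))
    (hA : e A = HahnSeries.ofPowerSeries ℤ K a) (hB : e B = HahnSeries.ofPowerSeries ℤ K b) :
    (∑ k, algebraMap K E (lam k) * D (U k) * ∏ l ∈ Finset.univ.erase k, U l) * B ^ 2 +
      (D A * B - A * D B) * ∏ l, U l = 0 := by
  classical
  have hinj : ∀ x : K⟦X⟧, HahnSeries.ofPowerSeries ℤ K x = 0 → x = 0 := by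
    intro x hx
    have h3 : HahnSeries.ofPowerSeries ℤ K x = HahnSeries.ofPowerSeries ℤ K 0 := by
      rw [map_zero]; exact hx
    exact HahnSeries.ofPowerSeries_injective h3
  -- logarithmic derivatives
  choose w hw using fun i => exists_logDer (u i) (hu0 i)
  have hP : ∏ l, u l ≠ 0 := Finset.prod_ne_zero_iff.2 fun i _ => hu0 i
  have h1 : (∑ k, C (lam k) * w k) * b ^ 2 + (eul a * b - a * eul b) = 0 := by
    have h2 : (∏ l, u l) * ((∑ k, C (lam k) * w k) * b ^ 2 + (eul a * b - a * eul b)) =
        X * ((∑ k, algebraMap K K⟦X⟧ (lam k) * derivative K (u k) *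
        ∏ l ∈ Finset.univ.erase k, u l) * b ^ 2 +
      (derivative K a * b - a * derivative K b) * ∏ l, u l) := by
      have h3 : (∏ l, u l) * (∑ k, C (lam k) * w k) =
          X * (∑ k, algebraMap K K⟦X⟧ (lam k) * derivative K (u k) *
        ∏ l ∈ Finset.univ.erase k, u l) := by
        rw [Finset.mul_sum, Finset.mul_sum]
        apply Finset.sum_congr rfl
        intro k _
        rw [← Finset.mul_prod_erase _ _ (Finset.mem_univ k)]
        have h4 : (algebraMap K K⟦X⟧ (lam k)) = C (lam k) := rfl
        rw [h4]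
        have h5 : w k * u k = X * derivative K (u k) := hw k
        linear_combination (C (lam k) * ∏ l ∈ Finset.univ.erase k, u l) * h5
      calc (∏ l, u l) * ((∑ k, C (lam k) * w k) * b ^ 2 + (eul a * b - a * eul b))
          = ((∏ l, u l) * (∑ k, C (lam k) * w k)) * b ^ 2
            + (∏ l, u l) * (eul a * b - a * eul b) := by ring
        _ = _ := by rw [h3]; simp only [eul]; ring
    rw [hrel, mul_zero] at h2
    exact (mul_eq_zero.1 h2).resolve_left hP
  obtain ⟨h, hab, hWh⟩ := exact_part _ a b hb0 h1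
  have hh : h ∈ sli K := of_mul_mem_sli' hb hb0 (by rw [← hab]; exact ha)
  obtain ⟨κ, _, ka, c, hc1, hc2⟩ := rational_relations u w hu hu0 hw
  have hc3 := hc2 lam h hh hWh
  -- `h` is constant
  have hsum0 : ∑ k, C (lam k) * w k = 0 := by
    have e1 : ∑ j, C (lam j) * w j = ∑ k, C (∑ j, lam j * ((c j k : ℚ) : K)) * w (ka k) := by
      have e2 : ∀ j, C (lam j) * w j = ∑ k, C (lam j * ((c j k : ℚ) : K)) * w (ka k) := by
        intro j
        conv_lhs => rw [hc1 j]
        rw [Finset.mul_sum]
        apply Finset.sum_congr rfl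
        intro k _
        rw [map_mul]; ring
      simp only [e2]
      rw [Finset.sum_comm]
      apply Finset.sum_congr rfl
      intro k _
      rw [map_sum, Finset.sum_mul]
    rw [e1]
    apply Finset.sum_eq_zero
    intro k _
    rw [hc3 k, map_zero, zero_mul]
  have hheul : eul h = 0 := by rw [hsum0, zero_add] at hWh; exact hWh
  have hhC := eq_C_of_eul_eq_zero hheul
  -- nonvanishing in `E`
  have hU0 : ∀ i, U i ≠ 0 := by
    intro i h0
    have h2 := hU i
    rw [h0, map_zero] at h2
    exact hu0 i (hinj _ h2.symm)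
  have hB0 : B ≠ 0 := by
    intro h0
    rw [h0, map_zero] at hB
    exact hb0 (hinj _ hB.symm)
  -- the exact part is constant in `E`
  have hAB : A = algebraMap K E (coeff 0 h) * B := by
    apply e.injective
    rw [map_mul, he, hA, hB, hab, hhC, map_mul]
    have h3 : coeff 0 (C (coeff 0 h) : K⟦X⟧) = coeff 0 h := by simp
    rw [h3]
  have hDAB : D A * B - A * D B = 0 := by
    rw [hAB, Derivation.leibniz, D.map_algebraMap]
    simp only [smul_eq_mul, mul_zero, add_zero]
    ring
  rw [cleared_iff _ _ U hU0 A B (D A) (D B) hB0, hDAB, zero_div, add_zero]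
  -- the logarithmic part
  have hdl : ∀ j, D (U j) / U j = ∑ k, algebraMap K E ((c j k : ℚ) : K) *
      (D (U (ka k)) / U (ka k)) := by
    intro j
    have h2 := dlog_rel e he D (τ := Option κ) (fun i => i.elim (U j) (fun k => U (ka k)))
      (fun i => i.elim (u j) (fun k => u (ka k))) (fun i => i.elim (w j) (fun k => w (ka k)))
      (by rintro (_ | k); exacts [hU j, hU (ka k)])
      (by rintro (_ | k); exacts [hu0 j, hu0 (ka k)])
      (by rintro (_ | k); exacts [hw j, hw (ka k)])
      (fun i => i.elim 1 (fun k => - c j k)) (by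
        rw [Fintype.sum_option]
        simp only [Option.elim_none, Option.elim_some, Rat.cast_one, map_one, one_mul,
          Rat.cast_neg, map_neg, neg_mul, Finset.sum_neg_distrib]
        rw [← hc1 j]
        ring)
    rw [Fintype.sum_option] at h2
    simp only [Option.elim_none, Option.elim_some, Rat.cast_one, map_one, one_mul,
          Rat.cast_neg, map_neg, neg_mul, Finset.sum_neg_distrib] at h2
    rw [add_neg_eq_zero] at h2
    exact h2
  have hfin : ∑ j, algebraMap K E (lam j) * (D (U j) / U j) = 0 := by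
    have e2 : ∀ j, algebraMap K E (lam j) * (D (U j) / U j) =
        ∑ k, algebraMap K E (lam j * ((c j k : ℚ) : K)) * (D (U (ka k)) / U (ka k)) := by
      intro j
      conv_lhs => rw [hdl j]
      rw [Finset.mul_sum]
      apply Finset.sum_congr rfl
      intro k _
      rw [map_mul]; ring
    simp only [e2]
    rw [Finset.sum_comm]
    apply Finset.sum_eq_zero
    intro k _
    rw [← Finset.sum_mul, ← map_sum, hc3 k, map_zero, zero_mul]
  rw [hfin, zero_mul]

end Pool.Agent.W_MP_b91de3_nt
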