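import Mathlib
import Pool.Agent.W_MP_b91de3_nt.Alg
import Pool.Agent.W_MP_b91de3_nt.Forms

set_option autoImplicit false

/-!
# Algebraicity of superlinearly integral points killed by enough closed logarithmic forms
-/

namespace Pool.Agent.W_MP_b91de3_nt

open IsDedekindDomain NumberField Filter PowerSeries

universe u

section Inst

variable (K : Type u) [Field K]

/-- the field of rational functions -/
noncomputable abbrev Kz : Type u := FractionRing (Polynomial K)

noncomputable instance instAlgKz : Algebra (Kz K) (LaurentSeries K) :=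
  FractionRing.liftAlgebra (Polynomial K) (LaurentSeries K)

instance instTowerKz : IsScalarTower (Polynomial K) (Kz K) (LaurentSeries K) :=
  FractionRing.isScalarTower_liftAlgebra (Polynomial K) (LaurentSeries K)

lemma algebraMap_poly_laurent (P : Polynomial K) :
    algebraMap (Polynomial K) (LaurentSeries K) P =
      HahnSeries.ofPowerSeries ℤ K (P : K⟦X⟧) := rfl

lemma algebraMap_const (c : K) : algebraMap (Kz K) (LaurentSeries K)
    (algebraMap (Polynomial K) (Kz K) (Polynomial.C c)) = HahnSeries.ofPowerSeries ℤ K (C c) := by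
  rw [← IsScalarTower.algebraMap_apply (Polynomial K) (Kz K) (LaurentSeries K),
    algebraMap_poly_laurent, Polynomial.coe_C]

lemma algebraMap_var : algebraMap (Kz K) (LaurentSeries K)
    (algebraMap (Polynomial K) (Kz K) Polynomial.X) = HahnSeries.ofPowerSeries ℤ K X := by
  rw [← IsScalarTower.algebraMap_apply (Polynomial K) (Kz K) (LaurentSeries K),
    algebraMap_poly_laurent, Polynomial.coe_X]

end Inst

lemma map_aeval_of {σ K B B' : Type*} [CommRing K] [CommRing B] [CommRing B'] [Algebra K B]
    (e : B →+* B') {B'' : Type*} [CommRing B''] [Algebra K B''] (e' : B'' →+* B')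
    (x : σ → B) (y : σ → B'')
    (hC : ∀ c : K, e (algebraMap K B c) = e' (algebraMap K B'' c)) (hx : ∀ i, e (x i) = e' (y i))
    (P : MvPolynomial σ K) :
    e (MvPolynomial.aeval x P) = e' (MvPolynomial.aeval y P) := by
  induction P using MvPolynomial.induction_on with
  | C a => rw [MvPolynomial.aeval_C, MvPolynomial.aeval_C, hC]
  | add p q hp hq => rw [map_add, map_add, hp, hq, map_add, map_add]
  | mul_X p i hp => rw [map_mul, map_mul, MvPolynomial.aeval_X, hp, hx, map_mul, map_mul,
      MvPolynomial.aeval_X]

variable {K : Type u} [Field K] [NumberField K]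

theorem alg_of_forms {n : ℕ} (x : Fin (n + 1) → K⟦X⟧) (e0 : ℕ) (hx0 : x 0 = X ^ e0)
    (hx : ∀ i, x i ∈ sli K)
    (ω : Fin n → LogForm (Fin (n + 1)) K)
    (hF : ∀ j k, MvPolynomial.aeval x ((ω j).F k) ≠ 0)
    (hH : ∀ j, MvPolynomial.aeval x (ω j).H ≠ 0)
    (hker : ∀ j, ∑ i, MvPolynomial.aeval x ((ω j).num i) * derivative K (x i) = 0)
    (hdet : Matrix.det (Matrix.of fun j k : Fin n =>
      MvPolynomial.aeval x ((ω j).num k.succ)) ≠ 0) (i : Fin (n + 1)) :
    IsAlgebraic (Polynomial K) (x i) := by
  classical
  let s : Set (LaurentSeries K) := Set.range (fun i => HahnSeries.ofPowerSeries ℤ K (x i))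
  have hs : s.Finite := Set.finite_range _
  have hmem : ∀ i, HahnSeries.ofPowerSeries ℤ K (x i) ∈ s := fun i => ⟨i, rfl⟩
  have hsl : ∀ P : MvPolynomial (Fin (n + 1)) K, MvPolynomial.aeval x P ∈ sli K := by
    intro P
    induction P using MvPolynomial.induction_on with
    | C a => rw [MvPolynomial.aeval_C]; exact C_mem_sli a
    | add p q hp hq => rw [map_add]; exact (sli K).add_mem hp hq
    | mul_X p i hp => rw [map_mul, MvPolynomial.aeval_X]; exact (sli K).mul_mem hp (hx i)
  have key : ∀ D : Derivation (Kz K) (IntermediateField.adjoin (Kz K) s)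
      (IntermediateField.adjoin (Kz K) s), ∀ (y : LaurentSeries K) (hy : y ∈ s),
      D ⟨y, IntermediateField.subset_adjoin (Kz K) s hy⟩ = 0 := by
    intro D
    let E := IntermediateField.adjoin (Kz K) s
    let cE : K →+* E := (algebraMap (Kz K) E).comp
      ((algebraMap (Polynomial K) (Kz K)).comp Polynomial.C)
    let _ : Algebra K E := cE.toAlgebra
    let xE : Fin (n + 1) → E := fun i => ⟨HahnSeries.ofPowerSeries ℤ K (x i),
      IntermediateField.subset_adjoin (Kz K) s (hmem i)⟩
    let e : E →+* LaurentSeries K := E.val.toRingHom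
    have he : ∀ c : K, e (algebraMap K E c) = HahnSeries.ofPowerSeries ℤ K (C c) := by
      intro c
      rw [← algebraMap_const]
      rfl
    let D' : Derivation K E E := Derivation.mk'
      { toFun := fun y => D y
        map_add' := fun a b => map_add D a b
        map_smul' := fun c y => by
          have h1 : c • y = (algebraMap (Polynomial K) (Kz K) (Polynomial.C c)) • y := by
            rw [Algebra.smul_def, Algebra.smul_def]; rfl
          have h2 : ∀ z : E, (RingHom.id K c) • z =
              (algebraMap (Polynomial K) (Kz K) (Polynomial.C c)) • z := by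
            intro z
            rw [Algebra.smul_def, Algebra.smul_def]; rfl
          rw [h1, D.map_smul, h2] }
      (fun a b => D.leibniz a b)
    have hD' : ∀ y, D' y = D y := fun y => rfl
    have hev : ∀ P : MvPolynomial (Fin (n + 1)) K,
        e (MvPolynomial.aeval xE P) =
          HahnSeries.ofPowerSeries ℤ K (MvPolynomial.aeval x P) := by
      intro P
      exact map_aeval_of e (HahnSeries.ofPowerSeries ℤ K) xE x (fun c => he c) (fun i => rfl) P
    have hD0 : D (xE 0) = 0 := by
      have h1 : xE 0 = algebraMap (Kz K) E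
          ((algebraMap (Polynomial K) (Kz K) Polynomial.X) ^ e0) := by
        apply e.injective
        have h2 : e (xE 0) = HahnSeries.ofPowerSeries ℤ K (x 0) := rfl
        rw [h2, hx0, map_pow, ← algebraMap_var, ← map_pow]
        rfl
      rw [h1, D.map_algebraMap]
    -- the relations
    have hrel : ∀ j, ∑ i, MvPolynomial.aeval xE ((ω j).num i) * D' (xE i) = 0 := by
      intro j
      rw [LogForm.aeval_num_sum]
      refine single_form (ω j).lam (fun k => MvPolynomial.aeval x ((ω j).F k)) (fun k => hsl _)
        (fun k => hF j k) (MvPolynomial.aeval x (ω j).G) (MvPolynomial.aeval x (ω j).H)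
        (hsl _) (hsl _) (hH j) ?_ e he D' (fun k => MvPolynomial.aeval xE ((ω j).F k))
        (MvPolynomial.aeval xE (ω j).G) (MvPolynomial.aeval xE (ω j).H)
        (fun k => hev _) (hev _) (hev _)
      rw [← LogForm.aeval_num_sum (ω j) (derivative K) x]
      exact hker j
    -- linear algebra
    let Mat : Matrix (Fin n) (Fin n) E :=
      Matrix.of fun j k => MvPolynomial.aeval xE ((ω j).num k.succ)
    have hMdet : Mat.det ≠ 0 := by
      intro h0
      apply hdet
      apply HahnSeries.ofPowerSeries_injective (Γ := ℤ) (R := K)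
      rw [map_zero]
      have h1 : e Mat.det = HahnSeries.ofPowerSeries ℤ K (Matrix.det (Matrix.of fun j k : Fin n =>
          MvPolynomial.aeval x ((ω j).num k.succ))) := by
        rw [RingHom.map_det, RingHom.map_det]
        congr 1
        refine Matrix.ext fun j k => ?_
        exact hev _
      rw [← h1, h0, map_zero]
    have hv : (fun k : Fin n => D' (xE k.succ)) = 0 := by
      apply Matrix.eq_zero_of_mulVec_eq_zero hMdet
      funext j
      have h1 := hrel j
      rw [Fin.sum_univ_succ, hD' (xE 0), hD0, mul_zero, zero_add] at h1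
      rw [Matrix.mulVec, dotProduct, Pi.zero_apply, ← h1]
      rfl
    rintro y ⟨i, rfl⟩
    change D (xE i) = 0
    refine Fin.cases hD0 (fun k => ?_) i
    exact congrFun hv k
  have h1 := isAlgebraic_of_derivations_adjoin s hs key _ (hmem i)
  have h2 : IsAlgebraic (Polynomial K) (HahnSeries.ofPowerSeries ℤ K (x i)) :=
    (IsFractionRing.isAlgebraic_iff (Polynomial K) (Kz K) (LaurentSeries K)).2 h1
  obtain ⟨P, hP0, hP⟩ := h2
  refine ⟨P, hP0, ?_⟩
  apply HahnSeries.ofPowerSeries_injective (Γ := ℤ) (R := K)
  rw [map_zero, ← hP]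
  rw [Polynomial.aeval_def, Polynomial.aeval_def, Polynomial.hom_eval₂]
  rfl

end Pool.Agent.W_MP_b91de3_nt
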