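import Mathlib
import Pool.Agent.W_MP_b91de3_nt.Sli

set_option autoImplicit false

/-!
# Eisenstein's theorem over a number field
-/

namespace Pool.Agent.W_MP_b91de3_nt

open IsDedekindDomain NumberField Filter PowerSeries

section Rec

variable {k : Type*} [Field k]

lemma pow_lt_mem {S : Subring k} {h : k⟦X⟧} {N : ℕ} (hN : ∀ j < N, coeff j h ∈ S) (e : ℕ) :
    ∀ j < N, coeff j (h ^ e) ∈ S := by
  intro j hj
  obtain ⟨M, rfl⟩ : ∃ M, N = M + 1 := ⟨N - 1, by omega⟩
  have hT : Tn S M h := fun i hi => hN i (by omega)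
  have : ∀ e, Tn S M (h ^ e) := by
    intro e
    induction e with
    | zero => rw [pow_zero]; exact Tn.one
    | succ e ih => rw [pow_succ]; exact ih.mul hT
  exact this e j (by omega)

lemma pow_top_mem {S : Subring k} {h : k⟦X⟧} {N : ℕ} (h0 : coeff 0 h = 0)
    (hN : ∀ j < N, coeff j h ∈ S) (e : ℕ) : coeff N (h ^ (e + 2)) ∈ S := by
  rw [pow_succ, coeff_mul]
  apply S.sum_mem
  rintro ⟨a, b⟩ hab
  have h1 := Finset.HasAntidiagonal.mem_antidiagonal.1 hab
  simp only at h1 ⊢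
  rcases Nat.eq_zero_or_pos b with hb | hb
  · rw [hb, h0, mul_zero]; exact S.zero_mem
  rcases Nat.eq_zero_or_pos a with ha | ha
  · have : coeff 0 (h ^ (e + 1)) = 0 := by
      rw [coeff_zero_eq_constantCoeff_apply, map_pow, ← coeff_zero_eq_constantCoeff_apply, h0,
        zero_pow (by omega)]
    rw [ha, this, zero_mul]; exact S.zero_mem
  · exact S.mul_mem (pow_lt_mem hN _ a (by omega)) (hN b (by omega))

lemma rec_mem {S : Subring k} {h q0 : k⟦X⟧} {q : ℕ → k⟦X⟧} {m : ℕ} (h0 : coeff 0 h = 0)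
    (heq : h = q0 + ∑ i ∈ Finset.range m, q i * h ^ (i + 2)) (hq0 : ∀ j, coeff j q0 ∈ S)
    (hq : ∀ i < m, ∀ j, coeff j (q i) ∈ S) : ∀ N, coeff N h ∈ S := by
  intro N
  induction N using Nat.strong_induction_on with
  | _ N ih =>
    have h1 := congrArg (coeff N) heq
    rw [h1, map_add, map_sum]
    refine S.add_mem (hq0 N) (S.sum_mem fun i hi => ?_)
    rw [coeff_mul]
    apply S.sum_mem
    rintro ⟨a, b⟩ hab
    have h2 := Finset.HasAntidiagonal.mem_antidiagonal.1 hab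
    simp only at h2 ⊢
    refine S.mul_mem (hq i (Finset.mem_range.1 hi) a) ?_
    rcases Nat.lt_or_ge b N with hb | hb
    · exact pow_lt_mem ih _ b hb
    · have : b = N := by omega
      rw [this]
      exact pow_top_mem h0 ih i

end Rec

variable {K : Type*} [Field K] [NumberField K]

/-- integrality outside finitely many places -/
def IsEv (u : K⟦X⟧) : Prop :=
  ∀ᶠ v : HeightOneSpectrum (𝓞 K) in cofinite, ∀ j, coeff j u ∈ Sv v

lemma isEv_mul {a b : K⟦X⟧} (ha : IsEv a) (hb : IsEv b) : IsEv (a * b) := by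
  rw [IsEv] at ha hb ⊢
  filter_upwards [ha, hb] with v h1 h2 j
  exact (Tn.mul (N := j) (fun i _ => h1 i) (fun i _ => h2 i)) j le_rfl

lemma isEv_add {a b : K⟦X⟧} (ha : IsEv a) (hb : IsEv b) : IsEv (a + b) := by
  rw [IsEv] at ha hb ⊢
  filter_upwards [ha, hb] with v h1 h2 j
  exact (Tn.add (N := j) (fun i _ => h1 i) (fun i _ => h2 i)) j le_rfl

lemma isEv_neg {a : K⟦X⟧} (ha : IsEv a) : IsEv (-a) := by
  rw [IsEv] at ha ⊢
  filter_upwards [ha] with v h1 j
  exact (Tn.neg (N := j) (fun i _ => h1 i)) j le_rfl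

lemma isEv_one : IsEv (1 : K⟦X⟧) :=
  Filter.Eventually.of_forall fun v j => (Tn.one (S := Sv v) (N := j)) j le_rfl

lemma isEv_zero : IsEv (0 : K⟦X⟧) :=
  Filter.Eventually.of_forall fun v j => (Tn.zero (S := Sv v) (N := j)) j le_rfl

variable (K) in
/-- The ring of power series which are integral outside finitely many places. -/
noncomputable def evr : Subring K⟦X⟧ where
  carrier := {u | IsEv u}
  mul_mem' := isEv_mul
  one_mem' := isEv_one
  add_mem' := isEv_add
  zero_mem' := isEv_zero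
  neg_mem' := isEv_neg

lemma mem_evr (u : K⟦X⟧) : u ∈ evr K ↔
    ∀ᶠ v : HeightOneSpectrum (𝓞 K) in cofinite, ∀ j, coeff j u ∈ Sv v := Iff.rfl

lemma C_mem_evr (c : K) : (C c : K⟦X⟧) ∈ evr K := by
  rw [mem_evr]
  filter_upwards [eventually_mem_Sv c] with v hv j
  rw [coeff_C]; split_ifs
  · exact hv
  · exact (Sv v).zero_mem

lemma X_mem_evr : (X : K⟦X⟧) ∈ evr K := by
  rw [mem_evr]
  refine Filter.Eventually.of_forall fun v j => ?_
  rw [coeff_X]; split_ifs
  · exact (Sv v).one_mem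
  · exact (Sv v).zero_mem

lemma poly_mem_evr (P : Polynomial K) : (P : K⟦X⟧) ∈ evr K := by
  induction P using Polynomial.induction_on' with
  | add p q hp hq => rw [Polynomial.coe_add]; exact (evr K).add_mem hp hq
  | monomial n a =>
    rw [← Polynomial.C_mul_X_pow_eq_monomial, Polynomial.coe_mul, Polynomial.coe_pow,
      Polynomial.coe_X, Polynomial.coe_C]
    exact (evr K).mul_mem (C_mem_evr a) ((evr K).pow_mem X_mem_evr n)

lemma of_X_pow_mul_mem_evr {u : K⟦X⟧} {e : ℕ} (hu : X ^ e * u ∈ evr K) : u ∈ evr K := by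
  rw [mem_evr] at hu ⊢
  filter_upwards [hu] with v hv j
  have h := hv (j + e)
  rwa [coeff_X_pow_mul] at h

lemma of_mul_mem_evr {w b : K⟦X⟧} (hb : b ∈ evr K) (h0 : coeff 0 b ≠ 0) (ha : w * b ∈ evr K) :
    w ∈ evr K := by
  rw [mem_evr] at hb ha ⊢
  filter_upwards [hb, ha, eventually_mem_Sv (coeff 0 b)⁻¹] with v h1 h2 h3 j
  exact Tn.of_mul (N := j) (fun i _ => h1 i) h0 h3 (fun i _ => h2 i) j le_rfl

lemma inv_mem_evr {b : K⟦X⟧} (hb : b ∈ evr K) (h0 : coeff 0 b ≠ 0) : b⁻¹ ∈ evr K := by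
  apply of_mul_mem_evr hb h0
  rw [PowerSeries.inv_mul_cancel _ (by rw [← coeff_zero_eq_constantCoeff_apply]; exact h0)]
  exact (evr K).one_mem

lemma eval_mem_evr {P : Polynomial K⟦X⟧} (hP : ∀ i, P.coeff i ∈ evr K) {a : K⟦X⟧}
    (ha : a ∈ evr K) : P.eval a ∈ evr K := by
  rw [Polynomial.eval_eq_sum]
  exact (evr K).sum_mem fun i _ => (evr K).mul_mem (hP i) ((evr K).pow_mem ha i)

/-- Newton–Hensel–Eisenstein: a simple root of a polynomial over `evr K` lies in `evr K`. -/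
theorem root_mem_evr (P : Polynomial K⟦X⟧) (hP : ∀ i, P.coeff i ∈ evr K) (f : K⟦X⟧)
    (hf : P.eval f = 0) (hf' : P.derivative.eval f ≠ 0) : f ∈ evr K := by
  obtain ⟨δ, e, he, he0⟩ := exists_X_pow_mul hf'
  -- the truncation
  set A : K⟦X⟧ := ((PowerSeries.trunc (2 * δ + 1) f : Polynomial K) : K⟦X⟧) with hA
  have hAm : A ∈ evr K := poly_mem_evr _
  obtain ⟨t, ht⟩ : X ^ (2 * δ + 1) ∣ f - A := by
    rw [X_pow_dvd_iff]
    intro m hm
    rw [map_sub, hA, Polynomial.coeff_coe, PowerSeries.coeff_trunc, if_pos hm, sub_self]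
  set h : K⟦X⟧ := X ^ (δ + 1) * t with hh
  have hfA : f = X ^ δ * h + A := by
    have : f = A + X ^ (2 * δ + 1) * t := by rw [← ht]; ring
    rw [this, hh]; ring
  have hh0 : coeff 0 h = 0 := by
    rw [hh, coeff_X_pow_mul', if_neg (by omega)]
  set T := Polynomial.taylor A P with hT
  have hTc : ∀ i, T.coeff i ∈ evr K := by
    intro i
    rw [hT, Polynomial.taylor_coeff]
    apply eval_mem_evr _ hAm
    intro j
    rw [Polynomial.hasseDeriv_coeff]
    exact (evr K).mul_mem (natCast_mem _ _) (hP _)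
  have hTe : T.eval (X ^ δ * h) = 0 := by
    rw [hT, Polynomial.taylor_eval, ← hfA, hf]
  -- the linear coefficient
  have hT1 : T.coeff 1 = P.derivative.eval A := by rw [hT, Polynomial.taylor_coeff_one]
  obtain ⟨s, hs⟩ : f - A ∣ P.derivative.eval f - P.derivative.eval A :=
    Polynomial.sub_dvd_eval_sub _ _ _
  set e' : K⟦X⟧ := e - X ^ (δ + 1) * t * s with he'
  have hT1' : T.coeff 1 = X ^ δ * e' := by
    rw [hT1, he']
    have : P.derivative.eval A = X ^ δ * e - (f - A) * s := by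
      rw [← hs, he]; ring
    rw [this, ht]; ring
  have he'0 : coeff 0 e' ≠ 0 := by
    have : coeff 0 (X ^ (δ + 1) * t * s) = 0 := by
      rw [mul_assoc, coeff_X_pow_mul', if_neg (by omega)]
    rw [he', map_sub, this, sub_zero]; exact he0
  have he'm : e' ∈ evr K := of_X_pow_mul_mem_evr (e := δ) (by rw [← hT1']; exact hTc 1)
  -- expansion
  set n := T.natDegree with hn
  have hexp := Polynomial.eval_eq_sum_range' (p := T) (n := n + 2) (by omega) (X ^ δ * h)
  rw [hTe, Finset.sum_range_succ', Finset.sum_range_succ'] at hexp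
  simp only [zero_add, pow_zero, mul_one, pow_one] at hexp
  set Sg : K⟦X⟧ := ∑ i ∈ Finset.range n, T.coeff (i + 2) * X ^ (δ * i) * h ^ (i + 2) with hSg
  have hexp2 : ∑ i ∈ Finset.range n, T.coeff (i + 1 + 1) * (X ^ δ * h) ^ (i + 1 + 1) =
      X ^ (2 * δ) * Sg := by
    rw [hSg, Finset.mul_sum]
    apply Finset.sum_congr rfl
    intro i _
    ring
  rw [hexp2, hT1'] at hexp
  set p0 : K⟦X⟧ := -(e' * h + Sg) with hp0
  have hT0 : T.coeff 0 = X ^ (2 * δ) * p0 := by
    rw [hp0]; linear_combination -hexp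
  have hp0m : p0 ∈ evr K := of_X_pow_mul_mem_evr (e := 2 * δ) (by rw [← hT0]; exact hTc 0)
  have hinv : e'⁻¹ * e' = 1 := PowerSeries.inv_mul_cancel _ (by
    rw [← coeff_zero_eq_constantCoeff_apply]; exact he'0)
  have hinvm := inv_mem_evr he'm he'0
  have hheq : h = (-e'⁻¹ * p0) + ∑ i ∈ Finset.range n,
      (-e'⁻¹ * (T.coeff (i + 2) * X ^ (δ * i))) * h ^ (i + 2) := by
    have h1 : ∑ i ∈ Finset.range n,
      (-e'⁻¹ * (T.coeff (i + 2) * X ^ (δ * i))) * h ^ (i + 2) = -e'⁻¹ * Sg := by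
      rw [hSg, Finset.mul_sum]
      apply Finset.sum_congr rfl
      intro i _
      ring
    rw [h1, hp0]
    linear_combination (-h) * hinv
  have hhm : h ∈ evr K := by
    have h1 : (-e'⁻¹ * p0) ∈ evr K := (evr K).mul_mem ((evr K).neg_mem hinvm) hp0m
    have h2 : ∀ i, (-e'⁻¹ * (T.coeff (i + 2) * X ^ (δ * i))) ∈ evr K := fun i =>
      (evr K).mul_mem ((evr K).neg_mem hinvm)
        ((evr K).mul_mem (hTc _) ((evr K).pow_mem X_mem_evr _))
    have h3 : ∀ᶠ v : HeightOneSpectrum (𝓞 K) in cofinite, ∀ i : Fin n, ∀ j,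
        coeff j (-e'⁻¹ * (T.coeff ((i : ℕ) + 2) * X ^ (δ * (i : ℕ)))) ∈ Sv v :=
      eventually_all.2 fun i => h2 i
    rw [mem_evr] at h1 ⊢
    filter_upwards [h1, h3] with v h4 h5
    exact rec_mem hh0 hheq h4 (fun i hi => h5 ⟨i, hi⟩)
  rw [hfA]
  exact (evr K).add_mem ((evr K).mul_mem ((evr K).pow_mem X_mem_evr _) hhm) hAm

/-- **Eisenstein's theorem** over a number field. -/
theorem eisenstein (f : K⟦X⟧) (hf : IsAlgebraic (Polynomial K) f) : f ∈ evr K := by
  classical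
  have hinj : Function.Injective (algebraMap (Polynomial K) K⟦X⟧) := Polynomial.coe_injective K
  let p : ℕ → Prop := fun d => ∃ P : Polynomial (Polynomial K), P ≠ 0 ∧
    Polynomial.aeval f P = 0 ∧ P.natDegree = d
  have hex : ∃ d, p d := by
    obtain ⟨P, h1, h2⟩ := hf
    exact ⟨P.natDegree, P, h1, h2, rfl⟩
  obtain ⟨P, hP0, hPf, hPd⟩ := Nat.find_spec hex
  have hmin : ∀ Q : Polynomial (Polynomial K), Q ≠ 0 → Polynomial.aeval f Q = 0 →
      P.natDegree ≤ Q.natDegree := by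
    intro Q hQ0 hQ
    rw [hPd]
    exact Nat.find_min' hex ⟨Q, hQ0, hQ, rfl⟩
  have hdeg : P.natDegree ≠ 0 := by
    intro h0
    rw [Polynomial.eq_C_of_natDegree_eq_zero h0, Polynomial.aeval_C] at hPf
    have h1 : P.coeff 0 = 0 := hinj (by rw [hPf, map_zero])
    apply hP0
    rw [Polynomial.eq_C_of_natDegree_eq_zero h0, h1, map_zero]
  have hder : Polynomial.aeval f P.derivative ≠ 0 := by
    intro h0
    have h1 : P.derivative ≠ 0 := by
      intro h2
      exact hdeg (Polynomial.derivative_eq_zero.1 h2)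
    have h2 := hmin _ h1 h0
    have h3 := Polynomial.natDegree_derivative_lt hdeg
    omega
  apply root_mem_evr (P.map (algebraMap (Polynomial K) K⟦X⟧))
  · intro i
    rw [Polynomial.coeff_map]
    exact poly_mem_evr _
  · rw [Polynomial.eval_map, ← Polynomial.aeval_def]; exact hPf
  · rw [Polynomial.derivative_map, Polynomial.eval_map, ← Polynomial.aeval_def]; exact hder

end Pool.Agent.W_MP_b91de3_nt
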