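import Mathlib
import Pool.Agent.W_MP_b91de3_nt.Eisenstein
import Pool.Prelude.Def_F_fc9cdd2f

set_option autoImplicit false

/-!
# From `ω`-integrality to `sli`, and from `evr` to bounded denominators
-/

namespace Pool.Agent.W_MP_b91de3_nt

open IsDedekindDomain NumberField Filter PowerSeries N27ec9e13

variable {K : Type*} [Field K] [NumberField K]

/-- `ω`-integrality with superlinear `ω` implies superlinear integrality over `K`. -/
lemma map_mem_sli (f : ℚ⟦X⟧) (w : Nat.Primes → ℤ) (hw : omegaSuperlinear w)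
    (hint : omegaIntegral w (PowerSeries.coeff · f)) :
    PowerSeries.map (algebraMap ℚ K) f ∈ sli K := by
  rw [mem_sli]
  intro M
  have h1 := hw.eventually_ge_atTop (M : ℝ)
  rw [Filter.eventually_comap] at h1
  obtain ⟨N, hN⟩ := Filter.eventually_atTop.1 h1
  filter_upwards [eventually_pr_ge (K := K) N] with v hv j hj
  have h2 := hN (pr v) hv ⟨pr v, Fact.out⟩ rfl
  have hp : (0 : ℝ) < (pr v : ℝ) := by exact_mod_cast (Fact.out : (pr v).Prime).pos
  have h3 : (M : ℝ) * (pr v : ℝ) ≤ (w ⟨pr v, Fact.out⟩ : ℝ) := by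
    have h4 : (M : ℝ) ≤ (w ⟨pr v, Fact.out⟩ : ℝ) / ((pr v : ℕ) : ℝ) := h2
    rwa [le_div_iff₀ hp] at h4
  have h5 : ((M * pr v : ℕ) : ℤ) ≤ w ⟨pr v, Fact.out⟩ := by exact_mod_cast h3
  have h6 := hint ⟨pr v, Fact.out⟩ j (le_trans (by exact_mod_cast hj) h5)
  rw [PowerSeries.coeff_map]
  have h7 : (algebraMap ℚ K) (coeff j f) = ((coeff j f : ℚ) : K) := rfl
  rw [h7, rat_mem_Sv_iff]
  intro hd
  have h8 : Nat.Coprime (coeff j f).den (pr v) := h6
  exact (Fact.out : (pr v).Prime).one_lt.ne' (Nat.eq_one_of_dvd_coprimes h8 hd dvd_rfl)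

/-- A rational whose denominator's prime factors all divide `N` lies in `ℤ[1/N]`. -/
lemma mem_adjoin_of_prime_dvd (N : ℕ) (hN : N ≠ 0) (r : ℚ)
    (h : ∀ p : ℕ, p.Prime → p ∣ r.den → p ∣ N) : r ∈ ℤAdjoinInvNat N := by
  have h1 : ∃ k : ℕ, r.den ∣ N ^ k := by
    refine ⟨r.den, ?_⟩
    rw [← Nat.factorization_le_iff_dvd r.den_nz (pow_ne_zero _ hN)]
    intro p
    by_cases hp : p.Prime
    · by_cases hd : p ∣ r.den
      · rw [Nat.factorization_pow]
        have h2 : 1 ≤ N.factorization p := (hp.dvd_iff_one_le_factorization hN).1 (h p hp hd)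
        have h3 : r.den.factorization p ≤ r.den := by
          exact (Nat.factorization_lt p r.den_nz).le
        simp only [Finsupp.smul_apply, smul_eq_mul]
        calc r.den.factorization p ≤ r.den := h3
          _ = r.den * 1 := (mul_one _).symm
          _ ≤ r.den * N.factorization p := Nat.mul_le_mul_left _ h2
      · rw [Nat.factorization_eq_zero_of_not_dvd hd]; exact Nat.zero_le _
    · rw [Nat.factorization_eq_zero_of_not_prime _ hp]; exact Nat.zero_le _
  obtain ⟨k, c, hc⟩ := h1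
  have h2 : r = ((r.num * c : ℤ) : ℚ) * (1 / (N : ℚ)) ^ k := by
    have hN' : (N : ℚ) ≠ 0 := Nat.cast_ne_zero.2 hN
    have hd : (r.den : ℚ) ≠ 0 := Nat.cast_ne_zero.2 r.den_nz
    have hc' : (N : ℚ) ^ k = (r.den : ℚ) * c := by exact_mod_cast hc
    have hc0 : (c : ℚ) ≠ 0 := by
      intro h0
      rw [h0, mul_zero] at hc'
      exact pow_ne_zero _ hN' hc'
    rw [one_div, inv_pow, hc']
    have h3 : r = (r.num : ℚ) / (r.den : ℚ) := (Rat.num_div_den r).symm
    conv_lhs => rw [h3]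
    push_cast
    field_simp
  rw [h2]
  apply (ℤAdjoinInvNat N).mul_mem
  · have := (ℤAdjoinInvNat N).algebraMap_mem (r.num * c : ℤ)
    simpa using this
  · exact (ℤAdjoinInvNat N).pow_mem (Algebra.subset_adjoin rfl) k

lemma bounded_of_evr (f : ℚ⟦X⟧) (hf : PowerSeries.map (algebraMap ℚ K) f ∈ evr K) :
    ∃ N : ℕ, IsCoeffIntegralAdjointInvNat f N := by
  classical
  rw [mem_evr, Filter.eventually_cofinite] at hf
  set B := {v : HeightOneSpectrum (𝓞 K) |
    ¬ ∀ j, coeff j (PowerSeries.map (algebraMap ℚ K) f) ∈ Sv v} with hB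
  refine ⟨∏ v ∈ hf.toFinset, pr v, ?_⟩
  intro j
  apply mem_adjoin_of_prime_dvd
  · exact Finset.prod_ne_zero_iff.2 fun v _ => (Fact.out : (pr v).Prime).ne_zero
  · intro p hp hd
    obtain ⟨v, hv⟩ := exists_pr_eq (K := K) p hp
    have hvB : v ∈ hf.toFinset := by
      rw [Set.Finite.mem_toFinset]
      intro h
      have h1 := h j
      rw [PowerSeries.coeff_map] at h1
      have h7 : (algebraMap ℚ K) (coeff j f) = ((coeff j f : ℚ) : K) := rfl
      rw [h7, rat_mem_Sv_iff, hv] at h1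
      exact h1 hd
    rw [← hv]
    exact Finset.dvd_prod_of_mem _ hvB

end Pool.Agent.W_MP_b91de3_nt
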