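import Mathlib
import Pool.Agent.W_MP_b91de3_nt.Eisenstein

set_option autoImplicit false

/-!
# The ring `sli K` is algebraically closed in `K⟦X⟧`
-/

namespace Pool.Agent.W_MP_b91de3_nt

open IsDedekindDomain NumberField Filter PowerSeries

lemma rec_mem_trunc {k : Type*} [Field k] {S : Subring k} {B : ℕ} {h q0 : k⟦X⟧} {q : ℕ → k⟦X⟧}
    {m : ℕ} (h0 : coeff 0 h = 0)
    (heq : h = q0 + ∑ i ∈ Finset.range m, q i * h ^ (i + 2)) (hq0 : Tn S B q0)
    (hq : ∀ i < m, Tn S B (q i)) : Tn S B h := by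
  intro N
  induction N using Nat.strong_induction_on with
  | _ N ih =>
    intro hNB
    have h1 := congrArg (coeff N) heq
    rw [h1, map_add, map_sum]
    refine S.add_mem (hq0 N hNB) (S.sum_mem fun i hi => ?_)
    rw [coeff_mul]
    apply S.sum_mem
    rintro ⟨a, b⟩ hab
    have h2 := Finset.HasAntidiagonal.mem_antidiagonal.1 hab
    simp only at h2 ⊢
    have ih' : ∀ j < N, coeff j h ∈ S := fun j hj => ih j hj (by omega)
    refine S.mul_mem (hq i (Finset.mem_range.1 hi) a (by omega)) ?_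
    rcases Nat.lt_or_ge b N with hb | hb
    · exact pow_lt_mem ih' _ b hb
    · have : b = N := by omega
      rw [this]
      exact pow_top_mem h0 ih' i

variable {K : Type*} [Field K] [NumberField K]

lemma poly_mem_sli (P : Polynomial K) : (P : K⟦X⟧) ∈ sli K := by
  induction P using Polynomial.induction_on' with
  | add p q hp hq => rw [Polynomial.coe_add]; exact (sli K).add_mem hp hq
  | monomial n a =>
    rw [← Polynomial.C_mul_X_pow_eq_monomial, Polynomial.coe_mul, Polynomial.coe_pow,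
      Polynomial.coe_X, Polynomial.coe_C]
    exact (sli K).mul_mem (C_mem_sli a) ((sli K).pow_mem X_mem_sli n)

lemma inv_mem_sli {b : K⟦X⟧} (hb : b ∈ sli K) (h0 : coeff 0 b ≠ 0) : b⁻¹ ∈ sli K := by
  apply of_mul_mem_sli hb h0
  rw [PowerSeries.inv_mul_cancel _ (by rw [← coeff_zero_eq_constantCoeff_apply]; exact h0)]
  exact (sli K).one_mem

lemma eval_mem_sli {P : Polynomial K⟦X⟧} (hP : ∀ i, P.coeff i ∈ sli K) {a : K⟦X⟧}
    (ha : a ∈ sli K) : P.eval a ∈ sli K := by
  rw [Polynomial.eval_eq_sum]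
  exact (sli K).sum_mem fun i _ => (sli K).mul_mem (hP i) ((sli K).pow_mem ha i)

/-- A simple root of a polynomial over `sli K` lies in `sli K`. -/
theorem root_mem_sli (P : Polynomial K⟦X⟧) (hP : ∀ i, P.coeff i ∈ sli K) (f : K⟦X⟧)
    (hf : P.eval f = 0) (hf' : P.derivative.eval f ≠ 0) : f ∈ sli K := by
  obtain ⟨δ, e, he, he0⟩ := exists_X_pow_mul hf'
  -- the truncation
  set A : K⟦X⟧ := ((PowerSeries.trunc (2 * δ + 1) f : Polynomial K) : K⟦X⟧) with hA
  have hAm : A ∈ sli K := poly_mem_sli _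
  obtain ⟨t, ht⟩ : X ^ (2 * δ + 1) ∣ f - A := by
    rw [X_pow_dvd_iff]
    intro m hm
    rw [map_sub, hA, Polynomial.coeff_coe, PowerSeries.coeff_trunc, if_pos hm, sub_self]
  set h : K⟦X⟧ := X ^ (δ + 1) * t with hh
  have hfA : f = X ^ δ * h + A := by
    have : f = A + X ^ (2 * δ + 1) * t := by rw [← ht]; ring
    rw [this, hh]; ring
  have hh0 : coeff 0 h = 0 := by
    rw [hh, coeff_X_pow_mul', if_neg (by omega)]
  set T := Polynomial.taylor A P with hT
  have hTc : ∀ i, T.coeff i ∈ sli K := by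
    intro i
    rw [hT, Polynomial.taylor_coeff]
    apply eval_mem_sli _ hAm
    intro j
    rw [Polynomial.hasseDeriv_coeff]
    exact (sli K).mul_mem (natCast_mem _ _) (hP _)
  have hTe : T.eval (X ^ δ * h) = 0 := by
    rw [hT, Polynomial.taylor_eval, ← hfA, hf]
  -- the linear coefficient
  have hT1 : T.coeff 1 = P.derivative.eval A := by rw [hT, Polynomial.taylor_coeff_one]
  obtain ⟨s, hs⟩ : f - A ∣ P.derivative.eval f - P.derivative.eval A :=
    Polynomial.sub_dvd_eval_sub _ _ _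
  set e' : K⟦X⟧ := e - X ^ (δ + 1) * t * s with he'
  have hT1' : T.coeff 1 = X ^ δ * e' := by
    rw [hT1, he']
    have : P.derivative.eval A = X ^ δ * e - (f - A) * s := by
      rw [← hs, he]; ring
    rw [this, ht]; ring
  have he'0 : coeff 0 e' ≠ 0 := by
    have : coeff 0 (X ^ (δ + 1) * t * s) = 0 := by
      rw [mul_assoc, coeff_X_pow_mul', if_neg (by omega)]
    rw [he', map_sub, this, sub_zero]; exact he0
  have he'm : e' ∈ sli K := of_X_pow_mul_mem_sli (e := δ) (by rw [← hT1']; exact hTc 1)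
  -- expansion
  set n := T.natDegree with hn
  have hexp := Polynomial.eval_eq_sum_range' (p := T) (n := n + 2) (by omega) (X ^ δ * h)
  rw [hTe, Finset.sum_range_succ', Finset.sum_range_succ'] at hexp
  simp only [zero_add, pow_zero, mul_one, pow_one] at hexp
  set Sg : K⟦X⟧ := ∑ i ∈ Finset.range n, T.coeff (i + 2) * X ^ (δ * i) * h ^ (i + 2) with hSg
  have hexp2 : ∑ i ∈ Finset.range n, T.coeff (i + 1 + 1) * (X ^ δ * h) ^ (i + 1 + 1) =
      X ^ (2 * δ) * Sg := by
    rw [hSg, Finset.mul_sum]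
    apply Finset.sum_congr rfl
    intro i _
    ring
  rw [hexp2, hT1'] at hexp
  set p0 : K⟦X⟧ := -(e' * h + Sg) with hp0
  have hT0 : T.coeff 0 = X ^ (2 * δ) * p0 := by
    rw [hp0]; linear_combination -hexp
  have hp0m : p0 ∈ sli K := of_X_pow_mul_mem_sli (e := 2 * δ) (by rw [← hT0]; exact hTc 0)
  have hinv : e'⁻¹ * e' = 1 := PowerSeries.inv_mul_cancel _ (by
    rw [← coeff_zero_eq_constantCoeff_apply]; exact he'0)
  have hinvm := inv_mem_sli he'm he'0
  have hheq : h = (-e'⁻¹ * p0) + ∑ i ∈ Finset.range n,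
      (-e'⁻¹ * (T.coeff (i + 2) * X ^ (δ * i))) * h ^ (i + 2) := by
    have h1 : ∑ i ∈ Finset.range n,
      (-e'⁻¹ * (T.coeff (i + 2) * X ^ (δ * i))) * h ^ (i + 2) = -e'⁻¹ * Sg := by
      rw [hSg, Finset.mul_sum]
      apply Finset.sum_congr rfl
      intro i _
      ring
    rw [h1, hp0]
    linear_combination (-h) * hinv
  have hhm : h ∈ sli K := by
    have h1 : (-e'⁻¹ * p0) ∈ sli K := (sli K).mul_mem ((sli K).neg_mem hinvm) hp0m
    have h2 : ∀ i, (-e'⁻¹ * (T.coeff (i + 2) * X ^ (δ * i))) ∈ sli K := fun i =>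
      (sli K).mul_mem ((sli K).neg_mem hinvm)
        ((sli K).mul_mem (hTc _) ((sli K).pow_mem X_mem_sli _))
    intro M
    have h3 : ∀ᶠ v : HeightOneSpectrum (𝓞 K) in cofinite, ∀ i : Fin n,
        Tn (Sv v) (M * pr v) (-e'⁻¹ * (T.coeff ((i : ℕ) + 2) * X ^ (δ * (i : ℕ)))) :=
      eventually_all.2 fun i => h2 i M
    filter_upwards [h1 M, h3] with v h4 h5
    exact rec_mem_trunc hh0 hheq h4 (fun i hi => h5 ⟨i, hi⟩)
  rw [hfA]
  exact (sli K).add_mem ((sli K).mul_mem ((sli K).pow_mem X_mem_sli _) hhm) hAm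

/-- The ring `sli K` is algebraically closed in `K⟦X⟧`. -/
theorem mem_sli_of_isAlgebraic {R : Type*} [CommRing R] [IsDomain R] [Algebra R K⟦X⟧]
    (hinj : Function.Injective (algebraMap R K⟦X⟧)) (hR : ∀ r : R, algebraMap R K⟦X⟧ r ∈ sli K)
    (f : K⟦X⟧) (hf : IsAlgebraic R f) : f ∈ sli K := by
  classical
  have : CharZero R := by
    constructor
    intro a b hab
    have h1 := congrArg (algebraMap R K⟦X⟧) hab
    rw [map_natCast, map_natCast] at h1
    have h2 := congrArg (coeff 0) h1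
    simpa using h2
  let p : ℕ → Prop := fun d => ∃ P : Polynomial R, P ≠ 0 ∧
    Polynomial.aeval f P = 0 ∧ P.natDegree = d
  have hex : ∃ d, p d := by
    obtain ⟨P, h1, h2⟩ := hf
    exact ⟨P.natDegree, P, h1, h2, rfl⟩
  obtain ⟨P, hP0, hPf, hPd⟩ := Nat.find_spec hex
  have hmin : ∀ Q : Polynomial R, Q ≠ 0 → Polynomial.aeval f Q = 0 →
      P.natDegree ≤ Q.natDegree := by
    intro Q hQ0 hQ
    rw [hPd]
    exact Nat.find_min' hex ⟨Q, hQ0, hQ, rfl⟩
  have hdeg : P.natDegree ≠ 0 := by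
    intro h0
    rw [Polynomial.eq_C_of_natDegree_eq_zero h0, Polynomial.aeval_C] at hPf
    have h1 : P.coeff 0 = 0 := hinj (by rw [hPf, map_zero])
    apply hP0
    rw [Polynomial.eq_C_of_natDegree_eq_zero h0, h1, map_zero]
  have hder : Polynomial.aeval f P.derivative ≠ 0 := by
    intro h0
    have h1 : P.derivative ≠ 0 := by
      intro h2
      exact hdeg (Polynomial.derivative_eq_zero.1 h2)
    have h2 := hmin _ h1 h0
    have h3 := Polynomial.natDegree_derivative_lt hdeg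
    omega
  apply root_mem_sli (P.map (algebraMap R K⟦X⟧))
  · intro i
    rw [Polynomial.coeff_map]
    exact hR _
  · rw [Polynomial.eval_map, ← Polynomial.aeval_def]; exact hPf
  · rw [Polynomial.derivative_map, Polynomial.eval_map, ← Polynomial.aeval_def]; exact hder

/-- ramified base change preserves `sli` -/
lemma expand_mem_sli {e : ℕ} (he : e ≠ 0) {u : K⟦X⟧} (hu : u ∈ sli K) :
    PowerSeries.expand e he u ∈ sli K := by
  intro M
  filter_upwards [hu M] with v hv j hj
  by_cases hd : e ∣ j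
  · obtain ⟨i, rfl⟩ := hd
    rw [PowerSeries.coeff_expand_mul]
    apply hv
    exact le_trans (Nat.le_mul_of_pos_left _ (Nat.pos_of_ne_zero he)) hj
  · rw [PowerSeries.coeff_expand_of_not_dvd e he _ hd]
    exact (Sv v).zero_mem

lemma mem_evr_of_expand {e : ℕ} (he : e ≠ 0) {u : K⟦X⟧}
    (hu : PowerSeries.expand e he u ∈ evr K) : u ∈ evr K := by
  rw [mem_evr] at hu ⊢
  filter_upwards [hu] with v hv j
  have h1 := hv (e * j)
  rwa [PowerSeries.coeff_expand_mul] at h1

end Pool.Agent.W_MP_b91de3_nt
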