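import Mathlib
import Pool.Agent.W_MP_b91de3_nt.AlgForms
import Pool.Agent.W_MP_b91de3_nt.Omega
import Pool.Agent.W_MP_b91de3_nt.SliAlg

set_option autoImplicit false

/-!
# Omega-integral solutions of ODEs with enough closed logarithmic forms
-/

namespace Pool.Agent.W_MP_b91de3_nt

open IsDedekindDomain NumberField Filter PowerSeries N27ec9e13

universe u

/-- The series `u(t ^ e)`, with its rational coefficients viewed in `K`. -/
noncomputable def ram (K : Type u) [Field K] [NumberField K] {e : ℕ} (he : e ≠ 0) (u : ℚ⟦X⟧) :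
    K⟦X⟧ := PowerSeries.expand e he (PowerSeries.map (algebraMap ℚ K) u)

/-- The `K`-algebra generated by `t` and all `f^(i)(t ^ e)`, `i = 0, 1, 2, ...`. -/
noncomputable def diffRing (K : Type u) [Field K] [NumberField K] {e : ℕ} (he : e ≠ 0)
    (f : ℚ⟦X⟧) : Subalgebra K K⟦X⟧ :=
  Algebra.adjoin K (insert X (Set.range fun i : ℕ => ram K he ((derivative ℚ)^[i] f)))

section Lemmas

variable {K : Type u} [Field K] [NumberField K]

lemma map_derivative (u : ℚ⟦X⟧) : PowerSeries.map (algebraMap ℚ K) (derivative ℚ u) =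
    derivative K (PowerSeries.map (algebraMap ℚ K) u) := by
  ext n
  rw [PowerSeries.coeff_map, coeff_derivative, coeff_derivative, PowerSeries.coeff_map, map_mul,
    map_add, map_natCast, map_one]

lemma iter_mem_sli (f : ℚ⟦X⟧) (hf : PowerSeries.map (algebraMap ℚ K) f ∈ sli K) (m : ℕ) :
    PowerSeries.map (algebraMap ℚ K) ((derivative ℚ)^[m] f) ∈ sli K := by
  induction m with
  | zero => exact hf
  | succ m ih =>
    rw [Function.iterate_succ_apply', map_derivative]
    exact derivative_mem_sli ih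

lemma diffRing_le_sli {e : ℕ} (he : e ≠ 0) (f : ℚ⟦X⟧)
    (hf : PowerSeries.map (algebraMap ℚ K) f ∈ sli K) (r : K⟦X⟧) (hr : r ∈ diffRing K he f) :
    r ∈ sli K := by
  rw [diffRing] at hr
  induction hr using Algebra.adjoin_induction with
  | mem x hx =>
    rcases hx with hx | ⟨i, hi⟩
    · rw [hx]; exact X_mem_sli
    · rw [← hi]
      exact expand_mem_sli he (iter_mem_sli f hf i)
  | algebraMap r => exact C_mem_sli r
  | add x y hx hy h1 h2 => exact (sli K).add_mem h1 h2
  | mul x y hx hy h1 h2 => exact (sli K).mul_mem h1 h2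

/-- elements algebraic over the differential ring of `f` are superlinearly integral -/
lemma mem_sli_of_alg_diffRing {e : ℕ} (he : e ≠ 0) (f : ℚ⟦X⟧)
    (hf : PowerSeries.map (algebraMap ℚ K) f ∈ sli K) (x : K⟦X⟧)
    (hx : IsAlgebraic (diffRing K he f) x) : x ∈ sli K :=
  mem_sli_of_isAlgebraic (R := diffRing K he f) Subtype.coe_injective
    (fun r => diffRing_le_sli he f hf r.1 r.2) x hx

omit [NumberField K] in
/-- a nonzero polynomial relation between `z` and `f` makes `f` algebraic -/
lemma isAlgebraic_of_poly_rel (P : MvPolynomial (Fin 2) K) (hP : P ≠ 0) (x : Fin 2 → K⟦X⟧)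
    (hx0 : x 0 = X) (hx : MvPolynomial.aeval x P = 0) : IsAlgebraic (Polynomial K) (x 1) := by
  classical
  let y : Fin 2 → Polynomial (Polynomial K) :=
    fun i => if i = 0 then Polynomial.C Polynomial.X else Polynomial.X
  let φ : MvPolynomial (Fin 2) K →+* Polynomial (Polynomial K) :=
    MvPolynomial.eval₂Hom (Polynomial.C.comp Polynomial.C) y
  let ψ : Polynomial (Polynomial K) →+* MvPolynomial (Fin 2) K :=
    Polynomial.eval₂RingHom (Polynomial.eval₂RingHom MvPolynomial.C (MvPolynomial.X 0))
      (MvPolynomial.X 1)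
  have hcomp : ψ.comp φ = RingHom.id _ := by
    apply MvPolynomial.ringHom_ext
    · intro r
      simp [φ, ψ]
    · intro i
      fin_cases i
      · simp [φ, ψ, y]
      · simp [φ, ψ, y]
  have hφ : φ P ≠ 0 := by
    intro h0
    apply hP
    have h1 := DFunLike.congr_fun hcomp P
    rw [RingHom.comp_apply, h0, map_zero, RingHom.id_apply] at h1
    exact h1.symm
  refine ⟨φ P, hφ, ?_⟩
  rw [← hx]
  clear hx hφ hP
  induction P using MvPolynomial.induction_on with
  | C a =>
    have h1 : φ (MvPolynomial.C a) = Polynomial.C (Polynomial.C a) := by simp [φ]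
    rw [h1, Polynomial.aeval_C, MvPolynomial.aeval_C]
    have h2 : algebraMap (Polynomial K) K⟦X⟧ (Polynomial.C a) =
      ((Polynomial.C a : Polynomial K) : K⟦X⟧) := rfl
    rw [h2, Polynomial.coe_C]
    rfl
  | add p q hp hq => rw [map_add, map_add, hp, hq, map_add]
  | mul_X p i hp =>
    rw [map_mul, map_mul, hp, map_mul, MvPolynomial.aeval_X]
    congr 1
    have h1 : φ (MvPolynomial.X i) = y i := by simp [φ]
    rw [h1]
    fin_cases i
    · have h3 : y ((fun i => i) ⟨0, by decide⟩) = Polynomial.C Polynomial.X := by simp [y]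
      rw [h3, Polynomial.aeval_C]
      have h2 : algebraMap (Polynomial K) K⟦X⟧ (Polynomial.X) =
        ((Polynomial.X : Polynomial K) : K⟦X⟧) := rfl
      rw [h2, Polynomial.coe_X]
      exact hx0.symm
    · have h3 : y ((fun i => i) ⟨1, by decide⟩) = Polynomial.X := by simp [y]
      rw [h3, Polynomial.aeval_X]
      rfl

end Lemmas

/-- **Main theorem.** -/
theorem bounded_of_logForms (K : Type u) [Field K] [NumberField K] (f : ℚ⟦X⟧)
    (w : Nat.Primes → ℤ) (hw : omegaSuperlinear w)
    (hint : omegaIntegral w (PowerSeries.coeff · f))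
    {e : ℕ} (he : e ≠ 0) (m : ℕ) (hm : 1 ≤ m) (x : Fin (m + 1) → K⟦X⟧)
    (hx0 : x 0 = X ^ e) (hx1 : x 1 = ram K he f)
    (hx : ∀ i, IsAlgebraic (diffRing K he f) (x i))
    (ω : Fin m → LogForm (Fin (m + 1)) K)
    (hF : ∀ j k, (ω j).F k ≠ 0) (hH : ∀ j, (ω j).H ≠ 0)
    (hdet : Matrix.det (Matrix.of fun j k : Fin m => (ω j).num k.succ) ≠ 0)
    (hgen : 2 ≤ m → (∀ j k, MvPolynomial.aeval x ((ω j).F k) ≠ 0) ∧
      (∀ j, MvPolynomial.aeval x (ω j).H ≠ 0) ∧
      MvPolynomial.aeval x (Matrix.det (Matrix.of fun j k : Fin m => (ω j).num k.succ)) ≠ 0)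
    (hker : ∀ j, ∑ i, MvPolynomial.aeval x ((ω j).num i) * derivative K (x i) = 0) :
    ∃ N : ℕ, IsCoeffIntegralAdjointInvNat f N := by
  classical
  have hfs : PowerSeries.map (algebraMap ℚ K) f ∈ sli K := map_mem_sli f w hw hint
  have hxs : ∀ i, x i ∈ sli K := fun i => mem_sli_of_alg_diffRing he f hfs _ (hx i)
  have hdetx : MvPolynomial.aeval x (Matrix.det (Matrix.of fun j k : Fin m =>
      (ω j).num k.succ)) = Matrix.det (Matrix.of fun j k : Fin m =>
      MvPolynomial.aeval x ((ω j).num k.succ)) := by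
    rw [AlgHom.map_det]
    rfl
  apply bounded_of_evr (K := K)
  have main : (∀ j k, MvPolynomial.aeval x ((ω j).F k) ≠ 0) →
      (∀ j, MvPolynomial.aeval x (ω j).H ≠ 0) →
      MvPolynomial.aeval x (Matrix.det (Matrix.of fun j k : Fin m => (ω j).num k.succ)) ≠ 0 →
      PowerSeries.map (algebraMap ℚ K) f ∈ evr K := by
    intro h1 h2 h3
    rw [hdetx] at h3
    have h4 := alg_of_forms x e hx0 hxs ω h1 h2 hker h3 1
    rw [hx1] at h4
    exact mem_evr_of_expand he (eisenstein _ h4)
  rcases Nat.lt_or_ge m 2 with hm2 | hm2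
  · -- one form
    obtain rfl : m = 1 := by omega
    by_cases h1 : ∃ P : MvPolynomial (Fin 2) K, P ≠ 0 ∧ MvPolynomial.aeval x P = 0
    · obtain ⟨P, hP, hPx⟩ := h1
      apply eisenstein
      let y : Fin 2 → K⟦X⟧ := fun i => if i = 0 then X else PowerSeries.map (algebraMap ℚ K) f
      have hyx : ∀ i, PowerSeries.expand e he (y i) = x i := by
        intro i
        fin_cases i
        · change PowerSeries.expand e he (if (0 : Fin 2) = 0 then X else _) = x 0
          rw [if_pos rfl, PowerSeries.expand_X, hx0]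
        · change PowerSeries.expand e he (if (1 : Fin 2) = 0 then X else _) = x 1
          rw [if_neg (by decide), hx1]
          rfl
      have hPy : MvPolynomial.aeval y P = 0 := by
        have h2 : PowerSeries.expand e he (MvPolynomial.aeval y P) = MvPolynomial.aeval x P := by
          have h3 : (PowerSeries.expand e he : K⟦X⟧ →ₐ[K] K⟦X⟧).comp (MvPolynomial.aeval y) =
              MvPolynomial.aeval x := by
            apply MvPolynomial.algHom_ext
            intro i
            rw [AlgHom.comp_apply, MvPolynomial.aeval_X, MvPolynomial.aeval_X, hyx]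
          rw [← h3]; rfl
        rw [hPx] at h2
        ext j
        have h4 := congrArg (coeff (e * j)) h2
        rw [PowerSeries.coeff_expand_mul, map_zero] at h4
        rw [h4, map_zero]
      exact isAlgebraic_of_poly_rel P hP y (by simp [y]) hPy
    · push Not at h1
      exact main (fun j k => h1 _ (hF j k)) (fun j => h1 _ (hH j)) (h1 _ hdet)
  · obtain ⟨h1, h2, h3⟩ := hgen hm2
    exact main h1 h2 h3

end Pool.Agent.W_MP_b91de3_nt
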